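import Pool.Agent.NSet.Small

/-!
Module BL (section 5, near the rationals). PROOF: take `n` = the maximum of `1` and the `n₀` of `small` (`β = p`, `γ = q`, `N`, `η`) and
`ρ` for this `n`. Let `B = {b < i | q ^ b • z ∈ N ∧ ‖q ^ b • z‖ < ρ}`. Claim: for every `b ∈ B` at most `η n` elements of
`B` are in `[b, b + n)`: `small` with `w = q ^ b • z ≠ 0`, `D = {d < n | b + d ∈ B}`: for `d ∈ D`, `k` any:
`(p ^ k * q ^ d) • w = p ^ k • (q ^ (b + d) • z) ∈ N` as `N` is invariant under `p`. Induction on `i` (strong), or: cut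
`[0, i)` into `⌈i / n⌉` blocks of length `n`; in a block which contains an element of `B` let `b` be the first one: all
elements of `B` in the block are in `[b, b + n)`. So `#B ≤ (i / n + 1) * η n ≤ η i + η n`. Take `C = η n`.
-/

open MeasureTheory Filter Topology Set

namespace Pool.Agent.NSet

open Classical in
private theorem blocks (B : Set ℕ) {n : ℕ} (hn : 0 < n) {c : ℝ} (hc : 0 ≤ c) (i : ℕ)
    (h : ∀ b < i, b ∈ B → ((((Finset.range n).filter fun d => b + d ∈ B).card : ℕ) : ℝ) ≤ c) :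
    ∀ r j : ℕ, j + r = i →
      ((((Finset.Ico j i).filter fun d => d ∈ B).card : ℕ) : ℝ) ≤ ((r : ℝ) / n + 1) * c := by
  have hn' : (0 : ℝ) < n := by exact_mod_cast hn
  intro r
  induction r using Nat.strong_induction_on with
  | _ r ih =>
  intro j hj
  set S := (Finset.Ico j i).filter fun d => d ∈ B with hS
  have hr0 : (0 : ℝ) ≤ (r : ℝ) / n := by positivity
  rcases S.eq_empty_or_nonempty with he | hne
  · rw [he, Finset.card_empty, Nat.cast_zero]
    positivity
  have hb := S.min'_mem hne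
  set b := S.min' hne with hbdef
  rw [hS, Finset.mem_filter, Finset.mem_Ico] at hb
  obtain ⟨⟨hjb, hbi⟩, hbB⟩ := hb
  have hsub : S ⊆ (((Finset.range n).filter fun d => b + d ∈ B).image fun d => b + d) ∪
      ((Finset.Ico (b + n) i).filter fun d => d ∈ B) := by
    intro x hx
    have hbx : b ≤ x := S.min'_le x hx
    rw [hS, Finset.mem_filter, Finset.mem_Ico] at hx
    rw [Finset.mem_union]
    by_cases hxn : x < b + n
    · left
      rw [Finset.mem_image]
      refine ⟨x - b, ?_, by omega⟩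
      rw [Finset.mem_filter, Finset.mem_range]
      refine ⟨by omega, ?_⟩
      rw [Nat.add_sub_cancel' hbx]
      exact hx.2
    · right
      rw [Finset.mem_filter, Finset.mem_Ico]
      exact ⟨⟨by omega, hx.1.2⟩, hx.2⟩
  have h1 : S.card ≤ ((Finset.range n).filter fun d => b + d ∈ B).card +
      ((Finset.Ico (b + n) i).filter fun d => d ∈ B).card :=
    (Finset.card_le_card hsub).trans ((Finset.card_union_le _ _).trans
      (Nat.add_le_add_right Finset.card_image_le _))
  have h2 : (S.card : ℝ) ≤ ((((Finset.range n).filter fun d => b + d ∈ B).card : ℕ) : ℝ) +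
      ((((Finset.Ico (b + n) i).filter fun d => d ∈ B).card : ℕ) : ℝ) := by
    exact_mod_cast h1
  have h3 := h b hbi hbB
  by_cases hbn : b + n ≤ i
  · obtain ⟨r', hr'⟩ := Nat.exists_eq_add_of_le hbn
    have h4 := ih r' (by omega) (b + n) hr'.symm
    have h5 : (r' : ℝ) / n + 1 ≤ (r : ℝ) / n := by
      rw [div_add_one hn'.ne', div_le_div_iff_of_pos_right hn']
      have : r' + n ≤ r := by omega
      exact_mod_cast this
    have h6 : ((r' : ℝ) / n + 1) * c ≤ (r : ℝ) / n * c := mul_le_mul_of_nonneg_right h5 hc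
    linarith
  · have h4 : ((Finset.Ico (b + n) i).filter fun d => d ∈ B).card = 0 := by
      rw [Finset.Ico_eq_empty_of_le (by omega), Finset.filter_empty, Finset.card_empty]
    rw [h4, Nat.cast_zero, add_zero] at h2
    have h6 : 0 ≤ (r : ℝ) / n * c := mul_nonneg hr0 hc
    linarith

theorem block {p q : ℕ} (h : MI p q) {N : Set T} (hN : IsClosed N) (h0 : volume N = 0)
    (hpN : ∀ x ∈ N, p • x ∈ N) {η : ℝ} (hη : 0 < η) :
    ∃ ρ : ℝ, 0 < ρ ∧ ∃ C : ℝ, ∀ (i : ℕ) (z : T), (∀ b < i, q ^ b • z ≠ 0) →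
      (cnt {b | q ^ b • z ∈ N ∧ ‖q ^ b • z‖ < ρ} i : ℝ) ≤ η * i + C := by
  classical
  obtain ⟨n₀, hn₀⟩ := small h hN h0 hη
  set n := max 1 n₀ with hn
  have hn1 : 0 < n := lt_of_lt_of_le one_pos (le_max_left _ _)
  obtain ⟨ρ, hρ, hs⟩ := hn₀ n (le_max_right _ _)
  have hpk : ∀ (k : ℕ), ∀ x ∈ N, p ^ k • x ∈ N := by
    intro k
    induction k with
    | zero => intro x hx; rwa [pow_zero, one_smul]
    | succ k ih => intro x hx; rw [pow_succ', mul_smul]; exact hpN _ (ih x hx)
  refine ⟨ρ, hρ, η * n, fun i z hz => ?_⟩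
  obtain ⟨B, hB⟩ : ∃ B : Set ℕ, B = {b | q ^ b • z ∈ N ∧ ‖q ^ b • z‖ < ρ} := ⟨_, rfl⟩
  have hBm : ∀ b, b ∈ B ↔ (q ^ b • z ∈ N ∧ ‖q ^ b • z‖ < ρ) := by
    intro b
    rw [hB]
    exact Iff.rfl
  rw [← hB]
  have key := blocks B hn1 (c := η * n) (by positivity) i (fun b hb hbB => ?_) i 0 (by omega)
  · have hn' : (n : ℝ) ≠ 0 := by exact_mod_cast hn1.ne'
    have e : ((i : ℝ) / n + 1) * (η * n) = η * i + η * n := by field_simp
    rw [e] at key
    unfold cnt
    rw [Finset.range_eq_Ico]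
    convert key using 4
  · refine hs (q ^ b • z) (hz b hb) ((hBm b).1 hbB).2 _ (fun d hd => ?_)
    rw [Finset.mem_filter, Finset.mem_range] at hd
    refine ⟨hd.1, fun k => ?_⟩
    rw [mul_smul, ← mul_smul (q ^ d), ← pow_add, add_comm d b]
    exact hpk k _ ((hBm _).1 hd.2).1

end Pool.Agent.NSet
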