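import Pool.Agent.NSet.Prop4

/-!
Module CO (corollaries). PROOFS. `mi_of`: if `log q / log p = a / b` rational (positive, so `a, b ≥ 1`), then `q ^ b = p ^ a`.
`null_atomless`: `null_irr` and `μ {finite order} = 0` (a countable set, no atoms). `dense_ae`: `E_J = {x | ∀ a, p ^ a • x ∉ J}`
for `J` in a countable basis of nonempty open sets is closed, invariant, `≠ T`; so a.e. `x` is in none of them: the
orbit meets every nonempty open set. `full_support`: `p⁻¹ A = A`; if `μ (A ∩ J) = 0` then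
`μ (A ∩ {x | p ^ a • x ∈ J}) = μ ((p ^ a)⁻¹ (A ∩ J)) = μ (A ∩ J) = 0` for every `a`, so a.e. `x ∈ A` has an orbit which misses
`J`, against `dense_ae`.
-/

open MeasureTheory Filter Topology Set

namespace Pool.Agent.NSet

private theorem CO_countable : {x : T | IsOfFinAddOrder x}.Countable := by
  have h1 : {x : T | IsOfFinAddOrder x} ⊆ ⋃ n : ℕ, ⋃ _ : 0 < n, {x : T | addOrderOf x = n} := by
    intro x hx
    simp only [mem_iUnion]
    exact ⟨addOrderOf x, addOrderOf_pos_iff.2 hx, rfl⟩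
  refine Set.Countable.mono h1 ?_
  refine Set.countable_iUnion fun n => Set.countable_iUnion fun hn => ?_
  exact (AddCircle.finite_setOfPred_addOrderOf_eq 1 hn).countable

private theorem CO_iter (p a : ℕ) (x : T) : (fun x : T => p • x)^[a] x = p ^ a • x := by
  induction a with
  | zero => simp
  | succ a ih => rw [Function.iterate_succ_apply', ih, pow_succ', mul_smul]

theorem mi_of {p q : ℕ} (hp : 2 ≤ p) (hq : 2 ≤ q) (h : ∀ m n : ℕ, 0 < m → 0 < n → p ^ m ≠ q ^ n) : MI p q := by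
  refine ⟨hp, hq, ?_⟩
  rintro ⟨r, hr⟩
  have hlp : 0 < Real.log p := Real.log_pos (by exact_mod_cast (show 1 < p by omega))
  have hlq : 0 < Real.log q := Real.log_pos (by exact_mod_cast (show 1 < q by omega))
  have hr0 : (0 : ℝ) < (r : ℝ) := by
    rw [hr]
    positivity
  have hr0' : 0 < r := by exact_mod_cast hr0
  have hnum : 0 < r.num := Rat.num_pos.2 hr0'
  obtain ⟨a, ha⟩ := Int.eq_ofNat_of_zero_le hnum.le
  have hb : 0 < r.den := r.pos
  have hb' : (0 : ℝ) < r.den := by exact_mod_cast hb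
  have h1 : (r.den : ℝ) * Real.log q = a * Real.log p := by
    have h2 : (r : ℝ) = a / r.den := by
      rw [Rat.cast_def, ha]
      push_cast
      rfl
    rw [h2, div_eq_div_iff hb'.ne' hlp.ne'] at hr
    linarith
  apply h a r.den (by omega) hb
  have h2 : Real.log ((p : ℝ) ^ a) = Real.log ((q : ℝ) ^ r.den) := by
    rw [Real.log_pow, Real.log_pow]
    linarith
  have hp0 : (0 : ℝ) < p := by exact_mod_cast (show 0 < p by omega)
  have hq0 : (0 : ℝ) < q := by exact_mod_cast (show 0 < q by omega)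
  have h3 : (p : ℝ) ^ a = (q : ℝ) ^ r.den :=
    Real.log_injOn_pos (Set.mem_Ioi.2 (pow_pos hp0 a)) (Set.mem_Ioi.2 (pow_pos hq0 _)) h2
  exact_mod_cast h3

theorem null_atomless {p q : ℕ} (h : MI p q) {E : Set T} (hE : IsClosed E) (hne : E ≠ univ)
    (hpE : ∀ x ∈ E, p • x ∈ E) (μ : Measure T) [IsFiniteMeasure μ]
    (hμ : MeasurePreserving (fun x : T => q • x) μ μ) (hat : ∀ x, μ {x} = 0) : μ E = 0 := by
  have h1 := null_irr h hE hne hpE μ hμ
  have h2 : μ {x : T | IsOfFinAddOrder x} = 0 := by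
    have hna : NullSingletonClass μ := ⟨hat⟩
    exact CO_countable.measure_zero μ
  refine measure_mono_null (t := {x ∈ E | ¬ IsOfFinAddOrder x} ∪ {x : T | IsOfFinAddOrder x}) ?_
    (measure_union_null h1 h2)
  intro x hx
  by_cases h3 : IsOfFinAddOrder x
  · exact Or.inr h3
  · exact Or.inl ⟨hx, h3⟩

theorem dense_ae {p q : ℕ} (h : MI p q) (μ : Measure T) [IsFiniteMeasure μ]
    (hμ : MeasurePreserving (fun x : T => q • x) μ μ) (hat : ∀ x, μ {x} = 0) :
    ∀ᵐ x ∂μ, Dense (range fun a : ℕ => p ^ a • x) := by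
  have key : ∀ J ∈ TopologicalSpace.countableBasis T, ∀ᵐ x ∂μ, J.Nonempty →
      ∃ a : ℕ, p ^ a • x ∈ J := by
    intro J hJ
    by_cases hJ0 : J.Nonempty
    · have hJo : IsOpen J := TopologicalSpace.isOpen_of_mem_countableBasis hJ
      have hcl : IsClosed {x : T | ∀ a : ℕ, p ^ a • x ∉ J} := by
        have e1 : {x : T | ∀ a : ℕ, p ^ a • x ∉ J} =
            ⋂ a : ℕ, (fun x : T => p ^ a • x) ⁻¹' Jᶜ := by
          ext x
          simp
        rw [e1]
        exact isClosed_iInter fun a => hJo.isClosed_compl.preimage (continuous_const_smul (p ^ a))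
      have hne : {x : T | ∀ a : ℕ, p ^ a • x ∉ J} ≠ univ := by
        intro h1
        obtain ⟨x, hx⟩ := hJ0
        have h2 : x ∈ {x : T | ∀ a : ℕ, p ^ a • x ∉ J} := h1 ▸ mem_univ x
        exact h2 0 (by simpa using hx)
      have hinv : ∀ x ∈ {x : T | ∀ a : ℕ, p ^ a • x ∉ J}, p • x ∈ {x : T | ∀ a : ℕ, p ^ a • x ∉ J} := by
        intro x hx a
        rw [← mul_smul, ← pow_succ]
        exact hx (a + 1)
      have h0 := null_atomless h hcl hne hinv μ hμ hat
      have h1 : ∀ᵐ x ∂μ, x ∉ {x : T | ∀ a : ℕ, p ^ a • x ∉ J} := measure_eq_zero_iff_ae_notMem.1 h0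
      filter_upwards [h1] with x hx _
      by_contra h2
      exact hx fun a ha => h2 ⟨a, ha⟩
    · exact Eventually.of_forall fun x hx => absurd hx hJ0
  have h1 := (ae_ball_iff (TopologicalSpace.countable_countableBasis T)).2 key
  filter_upwards [h1] with x hx
  rw [(TopologicalSpace.isBasis_countableBasis T).dense_iff]
  intro J hJ hJ0
  obtain ⟨a, ha⟩ := hx J hJ hJ0
  exact ⟨p ^ a • x, ha, a, rfl⟩

theorem full_support {p q : ℕ} (h : MI p q) (μ : Measure T) [IsFiniteMeasure μ]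
    (hp : MeasurePreserving (fun x : T => p • x) μ μ) (hq : MeasurePreserving (fun x : T => q • x) μ μ)
    (hat : ∀ x, μ {x} = 0) {A : Set T} (hA : MeasurableSet A) (hinv : (fun x : T => p • x) ⁻¹' A = A)
    (hA0 : μ A ≠ 0) {J : Set T} (hJ : IsOpen J) (hJ0 : J.Nonempty) : μ (A ∩ J) ≠ 0 := by
  intro h0
  apply hA0
  have hpre : ∀ a : ℕ, (fun x : T => p ^ a • x) ⁻¹' A = A := by
    intro a
    induction a with
    | zero => simp
    | succ a ih =>
      have e1 : (fun x : T => p ^ (a + 1) • x) = (fun x : T => p • x) ∘ (fun x : T => p ^ a • x) := by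
        funext x
        simp only [Function.comp_apply]
        rw [← mul_smul, ← pow_succ']
      rw [e1, preimage_comp, hinv, ih]
  have h1 : ∀ a : ℕ, μ (A ∩ {x : T | p ^ a • x ∈ J}) = 0 := by
    intro a
    have h2 := (hp.iterate a).measure_preimage (s := A ∩ J) (hA.inter hJ.measurableSet).nullMeasurableSet
    rw [h0] at h2
    have e1 : (fun x : T => p • x)^[a] = fun x : T => p ^ a • x := by
      funext x
      exact CO_iter p a x
    rw [e1, preimage_inter, hpre a] at h2
    exact h2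
  have h2 : ∀ᵐ x ∂μ, ∀ a : ℕ, x ∉ A ∩ {x : T | p ^ a • x ∈ J} :=
    ae_all_iff.2 fun a => measure_eq_zero_iff_ae_notMem.1 (h1 a)
  rw [measure_eq_zero_iff_ae_notMem]
  filter_upwards [h2, dense_ae h μ hq hat] with x hx hd hxA
  obtain ⟨y, hy, a, rfl⟩ := hd.inter_open_nonempty J hJ hJ0
  exact hx a ⟨hxA, hy⟩

end Pool.Agent.NSet
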