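import Mathlib

/-!
# Null sets theorem: definitions (text: team-store MP_e27144_an_null_helper75.md)
-/

open MeasureTheory Filter Topology Set

namespace Pool.Agent.NSet

/-- the circle -/
abbrev T := AddCircle (1 : ℝ)

/-- `p` and `q` are at least `2` and `log q / log p` is irrational. -/
def MI (p q : ℕ) : Prop := 2 ≤ p ∧ 2 ≤ q ∧ Irrational (Real.log q / Real.log p)

/-- The closure of the orbit of `x` under multiplication by `p`. -/
def K (p : ℕ) (x : T) : Set T := closure (range fun a : ℕ => p ^ a • x)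

/-- The points `u` with `u + i / l ∈ K p x` for all `i ≤ j`. -/
def F (p l j : ℕ) (x : T) : Set T := {u | ∀ i ≤ j, u + ((((i : ℝ) / (l : ℝ) : ℝ)) : T) ∈ K p x}

open Classical in
/-- the number of elements of `D` below `n` -/
noncomputable def cnt (D : Set ℕ) (n : ℕ) : ℕ := ((Finset.range n).filter fun d => d ∈ D).card

/-- The set `D` of natural numbers has density zero. -/
def ZD (D : Set ℕ) : Prop := ∀ η : ℝ, 0 < η → ∃ n₀ : ℕ, ∀ n ≥ n₀, (cnt D n : ℝ) ≤ η * n

end Pool.Agent.NSet
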