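import Pool.Agent.NSet.Defs

/-!
Module ORB. Elementary facts on the orbit closures `K p x` and the sets `F p l j x`. PROOFS: multiplication by an integer is
continuous, `map_mem_closure` / `image_closure_subset_closure_image`; `T` is compact. `F` is an intersection of closed sets.
For `p ^ L ≡ 1 (mod l)`: `p ^ L • (i / l : T) = (i / l : T)` because `p ^ L * i / l - i / l` is an integer.
`F_succ`: `v + i / l ∈ K` and `(v + 1 / l) + i / l ∈ K` for `i ≤ j` give `v + (j + 1) / l ∈ K`.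
-/

open MeasureTheory Filter Topology Set

namespace Pool.Agent.NSet

theorem K_closed (p : ℕ) (x : T) : IsClosed (K p x) := isClosed_closure

theorem K_self (p : ℕ) (x : T) (a : ℕ) : p ^ a • x ∈ K p x := subset_closure ⟨a, rfl⟩

theorem K_sub {p : ℕ} {x : T} {E : Set T} (hE : IsClosed E) (hpE : ∀ x ∈ E, p • x ∈ E) (hx : x ∈ E) :
    K p x ⊆ E := by
  refine closure_minimal ?_ hE
  rintro _ ⟨a, rfl⟩
  show p ^ a • x ∈ E
  induction a with
  | zero => rwa [pow_zero, one_smul]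
  | succ a ih =>
    rw [pow_succ', mul_smul]
    exact hpE _ ih

theorem K_mul (p : ℕ) {x u : T} (hu : u ∈ K p x) (k : ℕ) : p ^ k • u ∈ K p x := by
  refine map_mem_closure (continuous_const_smul (p ^ k)) hu ?_
  rintro _ ⟨a, rfl⟩
  exact ⟨k + a, by show p ^ (k + a) • x = p ^ k • p ^ a • x; rw [pow_add, mul_smul]⟩

theorem K_map (p : ℕ) {x u : T} (hu : u ∈ K p x) (m : ℕ) : m • u ∈ K p (m • x) := by
  refine map_mem_closure (continuous_const_smul m) hu ?_
  rintro _ ⟨a, rfl⟩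
  exact ⟨a, by show p ^ a • m • x = m • p ^ a • x; rw [smul_comm]⟩

theorem F_closed (p l j : ℕ) (x : T) : IsClosed (F p l j x) := by
  have h1 : F p l j x = ⋂ i : ℕ, ⋂ _ : i ≤ j,
      (fun u : T => u + ((((i : ℝ) / (l : ℝ) : ℝ)) : T)) ⁻¹' K p x := by
    ext u
    simp [F]
  rw [h1]
  exact isClosed_iInter fun i => isClosed_iInter fun _ =>
    (K_closed p x).preimage (continuous_id.add continuous_const)

private theorem frac_fix {m l : ℕ} (hm : m ≡ 1 [MOD l]) (hl : 0 < l) (i : ℕ) :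
    m • ((((i : ℝ) / (l : ℝ) : ℝ)) : T) = ((((i : ℝ) / (l : ℝ) : ℝ)) : T) := by
  rw [← AddCircle.coe_nsmul, nsmul_eq_mul, ← sub_eq_zero, ← AddCircle.coe_sub,
    AddCircle.coe_eq_zero_iff]
  have h1 : (l : ℤ) ∣ (m : ℤ) - 1 := by
    have := (Nat.modEq_iff_dvd.1 hm.symm)
    simpa using this
  obtain ⟨c, hc⟩ := h1
  have hl' : (l : ℝ) ≠ 0 := by exact_mod_cast hl.ne'
  refine ⟨c * i, ?_⟩
  have hc' : (m : ℝ) - 1 = l * c := by exact_mod_cast hc
  rw [zsmul_eq_mul, mul_one]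
  push_cast
  have h2 : (m : ℝ) * ((i : ℝ) / l) - (i : ℝ) / l = ((m : ℝ) - 1) * (i : ℝ) / l := by ring
  rw [h2, hc']
  field_simp

theorem F_mul {p l j L : ℕ} (hL : p ^ L ≡ 1 [MOD l]) (hl : 0 < l) {x u : T} (hu : u ∈ F p l j x) (k : ℕ) :
    p ^ (L * k) • u ∈ F p l j x := by
  intro i hi
  have h1 : p ^ (L * k) ≡ 1 [MOD l] := by
    rw [pow_mul]
    simpa using hL.pow k
  have h2 := K_mul p (hu i hi) (L * k)
  rwa [smul_add, frac_fix h1 hl] at h2

theorem F_map {p q l j L : ℕ} (hL : q ^ L ≡ 1 [MOD l]) (hl : 0 < l) {x u : T} (hu : u ∈ F p l j x) (d : ℕ) :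
    q ^ (L * d) • u ∈ F p l j (q ^ (L * d) • x) := by
  intro i hi
  have h1 : q ^ (L * d) ≡ 1 [MOD l] := by
    rw [pow_mul]
    simpa using hL.pow d
  have h2 := K_map p (hu i hi) (q ^ (L * d))
  rwa [smul_add, frac_fix h1 hl] at h2

theorem F_zero (p l : ℕ) (x : T) : F p l 0 x = K p x := by
  ext u
  constructor
  · intro h
    have := h 0 le_rfl
    simpa using this
  · intro h i hi
    rw [Nat.le_zero.1 hi]
    simpa using h

theorem F_sub (p l j : ℕ) (x : T) : F p l j x ⊆ K p x := by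
  intro u h
  have := h 0 (Nat.zero_le j)
  simpa using this

theorem F_succ {p l j : ℕ} {x v : T} (h1 : v ∈ F p l j x) (h2 : v + ((1 / (l : ℝ) : ℝ) : T) ∈ F p l j x) :
    v ∈ F p l (j + 1) x := by
  intro i hi
  rcases Nat.lt_or_ge i (j + 1) with h | h
  · exact h1 i (by omega)
  · have hij : i = j + 1 := le_antisymm hi h
    have h3 := h2 j le_rfl
    have h4 : v + ((1 / (l : ℝ) : ℝ) : T) + ((((j : ℝ) / (l : ℝ) : ℝ)) : T) =
        v + ((((i : ℝ) / (l : ℝ) : ℝ)) : T) := by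
      rw [add_assoc, ← AddCircle.coe_add, hij]
      congr 2
      push_cast
      ring
    rwa [h4] at h3

/-- A point which is not of finite order has distinct images `b ^ a • u`, arbitrarily close to each other. -/
theorem close_pair {b : ℕ} (hb : 2 ≤ b) {u : T} (hu : ¬ IsOfFinAddOrder u) {ρ : ℝ} (hρ : 0 < ρ) :
    ∃ a a' : ℕ, b ^ a' • u - b ^ a • u ≠ 0 ∧ ‖b ^ a' • u - b ^ a • u‖ < ρ := by
  obtain ⟨z, -, φ, hφ, hlim⟩ := isCompact_univ.tendsto_subseq (x := fun a : ℕ => b ^ a • u)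
    (fun a => mem_univ _)
  have hc := hlim.cauchySeq
  rw [Metric.cauchySeq_iff] at hc
  obtain ⟨N, hN⟩ := hc ρ hρ
  have hlt : φ N < φ (N + 1) := hφ (Nat.lt_succ_self N)
  refine ⟨φ N, φ (N + 1), ?_, ?_⟩
  · intro h0
    rw [sub_eq_zero] at h0
    apply hu
    rw [isOfFinAddOrder_iff_nsmul_eq_zero]
    refine ⟨b ^ φ (N + 1) - b ^ φ N, ?_, ?_⟩
    · have := Nat.pow_lt_pow_right (by omega : 1 < b) hlt
      omega
    · have hle : b ^ φ N ≤ b ^ φ (N + 1) := Nat.pow_le_pow_right (by omega) hlt.le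
      rw [sub_nsmul _ hle, h0, add_neg_cancel]
  · have := hN (N + 1) (Nat.le_succ N) N le_rfl
    rw [dist_eq_norm] at this
    exact this

/-- A set of multiplicatively independent integers and a modulus prime to both. -/
theorem exists_L {p q l : ℕ} (hp : p.Coprime l) (hq : q.Coprime l) :
    ∃ L : ℕ, 0 < L ∧ p ^ L ≡ 1 [MOD l] ∧ q ^ L ≡ 1 [MOD l] := by
  rcases Nat.eq_zero_or_pos l with h | h
  · subst h
    rw [Nat.coprime_zero_right] at hp hq
    subst hp hq
    exact ⟨1, one_pos, rfl, rfl⟩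
  · exact ⟨Nat.totient l, Nat.totient_pos.2 h, Nat.ModEq.pow_totient hp, Nat.ModEq.pow_totient hq⟩

end Pool.Agent.NSet
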