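import Pool.Agent.NSet.Small
import Pool.Agent.NSet.Orb

/-!
Module DF (the main step of section 4 (b) at one point). Let `u ∈ F p l j x` be a point which is not of finite order and
let `J` be open, not empty. Then the set of `d` such that no difference of two points of `F p l j (q ^ (L d) x)` is in `J`
has density zero. PROOF: `N = {z | ∀ k, (p ^ L) ^ k • z ∉ J}` closed and null (`null_avoid`, `b = p ^ L ≥ 2`). `MI (p ^ L)
(q ^ L)` (same quotient of logarithms). Let `η > 0`, `n₀` from `small` for `β = p ^ L`, `γ = q ^ L`, `n ≥ n₀`, `ρ`.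
`close_pair` with `b = p ^ L`: `w = p ^ (L a') • u - p ^ (L a) • u`, `0 < ‖w‖ < ρ`, a difference of two points of
`F p l j x` (`F_mul`). For `d < n` in the set and all `k`: `((p ^ L) ^ k * (q ^ L) ^ d) • w` is a difference of two points
of `F p l j (q ^ (L d) x)` (`F_map`, then `F_mul`), so it is not in `J`; hence (all further multiples by `p ^ L` as well)
it is in `N`. So `cnt .. n ≤ η n`.
-/

open MeasureTheory Filter Topology Set

namespace Pool.Agent.NSet

theorem diff_dens {p q : ℕ} (h : MI p q) {l j L : ℕ} (hl : 0 < l) (hL : 0 < L) (hp : p ^ L ≡ 1 [MOD l])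
    (hq : q ^ L ≡ 1 [MOD l]) {x u : T} (hu : u ∈ F p l j x) (hu0 : ¬ IsOfFinAddOrder u) {J : Set T}
    (hJ : IsOpen J) (hJ0 : J.Nonempty) :
    ZD {d | ∀ v ∈ F p l j (q ^ (L * d) • x), ∀ v' ∈ F p l j (q ^ (L * d) • x), v' - v ∉ J} := by
  classical
  obtain ⟨hp2, hq2, hirr⟩ := h
  have hpL : 2 ≤ p ^ L := hp2.trans (Nat.le_self_pow hL.ne' p)
  have hqL : 2 ≤ q ^ L := hq2.trans (Nat.le_self_pow hL.ne' q)
  have hMI : MI (p ^ L) (q ^ L) := by
    refine ⟨hpL, hqL, ?_⟩
    push_cast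
    rw [Real.log_pow, Real.log_pow, mul_div_mul_left _ _ (by exact_mod_cast hL.ne')]
    exact hirr
  obtain ⟨hNc, hN0⟩ := null_avoid hpL hJ hJ0
  intro η hη
  obtain ⟨n₀, hn₀⟩ := small hMI hNc hN0 hη
  refine ⟨n₀, fun n hn => ?_⟩
  obtain ⟨ρ, hρ, hsm⟩ := hn₀ n hn
  obtain ⟨a, a', hne, hlt⟩ := close_pair hpL hu0 hρ
  have h2 := hsm _ hne hlt ((Finset.range n).filter fun d => d ∈ {d | ∀ v ∈ F p l j
    (q ^ (L * d) • x), ∀ v' ∈ F p l j (q ^ (L * d) • x), v' - v ∉ J}) ?_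
  · unfold cnt
    convert h2
  · intro d hd
    obtain ⟨hd1, hd2⟩ := Finset.mem_filter.1 hd
    refine ⟨Finset.mem_range.1 hd1, fun k m => ?_⟩
    have hF : ∀ c : ℕ, (p ^ L) ^ m • ((p ^ L) ^ k * (q ^ L) ^ d) • (p ^ L) ^ c • u ∈
        F p l j (q ^ (L * d) • x) := by
      intro c
      have h3 := F_mul hp hl (F_map hq hl (F_mul hp hl hu c) d) (m + k)
      have h4 : p ^ (L * (m + k)) • q ^ (L * d) • p ^ (L * c) • u =
          (p ^ L) ^ m • ((p ^ L) ^ k * (q ^ L) ^ d) • (p ^ L) ^ c • u := by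
        simp only [smul_smul]
        congr 1
        rw [← pow_mul, ← pow_mul, ← pow_mul, ← pow_mul, mul_add, pow_add]
        ring
      rwa [h4] at h3
    have h5 := hd2 _ (hF a) _ (hF a')
    rw [smul_sub, smul_sub]
    exact h5

end Pool.Agent.NSet
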