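import Pool.Agent.NSet.NullE

/-!
Module LG. The set of logarithms (in base `β`, modulo one) of the reals `s ∈ [1 / β, 1]` with `s ∈ N` or `- s ∈ N` modulo
one is contained in a closed null set `G` of the circle. PROOF: `S = {t ∈ Icc (-1) 0 | (β ^ t : T) ∈ N ∨ (- β ^ t : T) ∈ N}`
(real powers) is compact, `G` = its image in `T` is compact, so closed. `S` is null: it is the image under
`s ↦ log s / log β`, differentiable on `Icc (1 / β) 1`, of a subset of `{s | (s : T) ∈ N} ∪ {s | (-s : T) ∈ N}`, which is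
null by `lift_null` (for `- s` use `Measure.IsNegInvariant` or `Real` measure of the negation);
`MeasureTheory.addHaar_image_eq_zero_of_differentiableOn_of_addHaar_eq_zero`. Then `proj_null`.
For `s ∈ [1 / β, 1]`: `t = log s / log β ∈ [-1, 0]` and `β ^ t = s`.
-/

open MeasureTheory Filter Topology Set

namespace Pool.Agent.NSet

theorem log_set {β : ℕ} (hβ : 2 ≤ β) {N : Set T} (hN : IsClosed N) (h0 : volume N = 0) :
    ∃ G : Set T, IsClosed G ∧ volume G = 0 ∧ ∀ s : ℝ, 1 / (β : ℝ) ≤ s → s ≤ 1 →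
      ((s : T) ∈ N ∨ ((-s : ℝ) : T) ∈ N) → ((Real.log s / Real.log β : ℝ) : T) ∈ G := by
  have hβ1 : (1 : ℝ) < β := by exact_mod_cast (by omega : 1 < β)
  have hβ0 : (0 : ℝ) < β := by linarith
  have hL : 0 < Real.log β := Real.log_pos hβ1
  have hpow : ∀ s : ℝ, 0 < s → (β : ℝ) ^ (Real.log s / Real.log β) = s := by
    intro s hs
    rw [Real.rpow_def_of_pos hβ0, mul_div_cancel₀ _ hL.ne', Real.exp_log hs]
  let S : Set ℝ := Icc (-1) 0 ∩ {t : ℝ | (((β : ℝ) ^ t : ℝ) : T) ∈ N ∨ ((-((β : ℝ) ^ t) : ℝ) : T) ∈ N}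
  have hcont : Continuous fun t : ℝ => (((β : ℝ) ^ t : ℝ) : T) :=
    (AddCircle.continuous_mk' (1 : ℝ)).comp (continuous_const.rpow continuous_id
      fun _ => Or.inl hβ0.ne')
  have hcont' : Continuous fun t : ℝ => ((-((β : ℝ) ^ t) : ℝ) : T) :=
    (AddCircle.continuous_mk' (1 : ℝ)).comp (continuous_const.rpow continuous_id
      fun _ => Or.inl hβ0.ne').neg
  have hScl : IsClosed {t : ℝ | (((β : ℝ) ^ t : ℝ) : T) ∈ N ∨ ((-((β : ℝ) ^ t) : ℝ) : T) ∈ N} :=
    (hN.preimage hcont).union (hN.preimage hcont')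
  have hScp : IsCompact S := isCompact_Icc.inter_right hScl
  have hnull : volume ({s : ℝ | (s : T) ∈ N} ∪ {s : ℝ | ((-s : ℝ) : T) ∈ N}) = 0 := by
    refine measure_union_null (lift_null h0) ?_
    have h1 : {s : ℝ | ((-s : ℝ) : T) ∈ N} = Neg.neg ⁻¹' {s : ℝ | (s : T) ∈ N} := rfl
    rw [h1, Measure.measure_preimage_neg]
    exact lift_null h0
  have hS0 : volume S = 0 := by
    have h2 : volume ((fun s : ℝ => Real.log s / Real.log β) ''
        (Icc (1 / (β : ℝ)) 1 ∩ ({s : ℝ | (s : T) ∈ N} ∪ {s : ℝ | ((-s : ℝ) : T) ∈ N}))) = 0 := by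
      refine addHaar_image_eq_zero_of_differentiableOn_of_addHaar_eq_zero volume ?_
        (measure_mono_null inter_subset_right hnull)
      intro s hs
      have hs0 : 0 < s := lt_of_lt_of_le (by positivity) hs.1.1
      exact ((Real.differentiableAt_log hs0.ne').div_const _).differentiableWithinAt
    refine measure_mono_null (fun t ht => ?_) h2
    refine ⟨(β : ℝ) ^ t, ⟨⟨?_, ?_⟩, ht.2⟩, ?_⟩
    · rw [one_div, ← Real.rpow_neg_one]
      exact Real.rpow_le_rpow_of_exponent_le hβ1.le ht.1.1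
    · exact Real.rpow_le_one_of_one_le_of_nonpos hβ1.le ht.1.2
    · show Real.log ((β : ℝ) ^ t) / Real.log β = t
      rw [Real.log_rpow hβ0, mul_div_assoc, div_self hL.ne', mul_one]
  refine ⟨(fun t : ℝ => (t : T)) '' S, (hScp.image (AddCircle.continuous_mk' (1 : ℝ))).isClosed,
    proj_null hS0, fun s hs1 hs2 hs => ?_⟩
  have hs0 : 0 < s := lt_of_lt_of_le (by positivity) hs1
  refine ⟨Real.log s / Real.log β, ⟨⟨?_, ?_⟩, ?_⟩, rfl⟩
  · rw [le_div_iff₀ hL]
    have h1 := Real.log_le_log (by positivity) hs1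
    rw [one_div, Real.log_inv] at h1
    linarith
  · exact div_nonpos_of_nonpos_of_nonneg (Real.log_nonpos hs0.le hs2) hL.le
  · show (((β : ℝ) ^ (Real.log s / Real.log β) : ℝ) : T) ∈ N ∨
      ((-((β : ℝ) ^ (Real.log s / Real.log β)) : ℝ) : T) ∈ N
    rw [hpow s hs0]
    exact hs

end Pool.Agent.NSet
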