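import Pool.Agent.NSet.Orb

/-!
Module ME. Measurability. PROOF: for `u : T` the function `x ↦ infDist u (K p x) = inf_a ‖u - p ^ a • x‖`
(`Metric.infDist_closure`, infimum over a countable family of continuous functions: `Measurable.iInf` in `ℝ` needs bounds, it
may be easier to use `Metric.infEDist`, `infEDist u (closure s) = infEDist u s = ⨅ a, edist u (p ^ a • x)`, measurable in
`x` as a countable infimum in `ℝ≥0∞`). `g x u = ⨆ i ≤ j, infEDist (u + i / l) (K p x)` is measurable in `x` and continuous in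
`u` (1-Lipschitz), `u ∈ F p l j x` iff `g x u = 0`. (1) `F p l j x` is nonempty iff `⨅ u ∈ D, g x u = 0`, `D` a countable
dense set (`TopologicalSpace.denseSeq T`): compactness of `T`. (2) For `C` closed: there are `v ∈ F`, `z ∈ C` with
`v + z ∈ F` iff `⨅ u ∈ D, ⨅ z ∈ D_C, max (g x u) (g x (u + z)) = 0`, `D_C` a countable dense subset of `C`
(if `C` is empty the set is empty). Alternatively: `{x | F p l j x nonempty}` and the set in (2) are countable
intersections over `m` of countable unions of OPEN sets: `∀ m, ∃ u ∈ D (∃ z ∈ D_C), ∀ i ≤ j, ∃ a, ‖u + i / l - p ^ a x‖ <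
1 / (m + 1) (and the same for u + z)`.
-/

open MeasureTheory Filter Topology Set

namespace Pool.Agent.NSet

private theorem mea_gen {Z R : Type} [MetricSpace Z] [CompactSpace Z] [Finite R] (p : ℕ) (h : R → Z → T)
    (hc : ∀ r, Continuous (h r)) : MeasurableSet {x : T | ∃ z : Z, ∀ r, h r z ∈ K p x} := by
  obtain ⟨D, hDc, hDd⟩ := TopologicalSpace.exists_countable_dense Z
  have key : {x : T | ∃ z : Z, ∀ r, h r z ∈ K p x} =
      ⋂ m : ℕ, ⋃ z ∈ D, ⋂ r : R, ⋃ a : ℕ, {x : T | dist (h r z) (p ^ a • x) < 1 / ((m : ℝ) + 1)} := by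
    ext x
    simp only [Set.mem_ofPred_eq, Set.mem_iInter, Set.mem_iUnion, exists_prop]
    constructor
    · rintro ⟨z, hz⟩ m
      have hm : (0 : ℝ) < 1 / ((m : ℝ) + 1) / 2 := by positivity
      have h1 : ∀ r, ∀ᶠ z' in 𝓝 z, dist (h r z') (h r z) < 1 / ((m : ℝ) + 1) / 2 := fun r =>
        (hc r).continuousAt.eventually (Metric.ball_mem_nhds _ hm)
      have h2 : ∀ᶠ z' in 𝓝 z, ∀ r, dist (h r z') (h r z) < 1 / ((m : ℝ) + 1) / 2 :=
        eventually_all.2 h1
      obtain ⟨z', hz', hzD⟩ := mem_closure_iff_nhds.1 (hDd z) _ h2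
      refine ⟨z', hzD, fun r => ?_⟩
      obtain ⟨a, ha⟩ := Metric.mem_closure_range_iff.1 (hz r) _ hm
      refine ⟨a, ?_⟩
      calc dist (h r z') (p ^ a • x) ≤ dist (h r z') (h r z) + dist (h r z) (p ^ a • x) :=
            dist_triangle _ _ _
        _ < 1 / ((m : ℝ) + 1) / 2 + 1 / ((m : ℝ) + 1) / 2 := add_lt_add (hz' r) ha
        _ = 1 / ((m : ℝ) + 1) := by ring
    · intro hx
      choose z _ hz2 using hx
      obtain ⟨z₀, -, φ, hφ, hlim⟩ := isCompact_univ.tendsto_subseq (x := z) (fun n => Set.mem_univ _)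
      refine ⟨z₀, fun r => ?_⟩
      refine Metric.mem_closure_range_iff.2 fun ε hε => ?_
      have h1 : ∀ᶠ m in atTop, dist (h r (z (φ m))) (h r z₀) < ε / 2 :=
        (((hc r).tendsto z₀).comp hlim).eventually (Metric.ball_mem_nhds _ (by positivity))
      have h2 : ∀ᶠ m : ℕ in atTop, 1 / ((m : ℝ) + 1) < ε / 2 :=
        (tendsto_one_div_add_atTop_nhds_zero_nat (𝕜 := ℝ)).eventually
          (gt_mem_nhds (by positivity))
      obtain ⟨m, hm1, hm2⟩ := (h1.and h2).exists
      obtain ⟨a, ha⟩ := hz2 (φ m) r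
      refine ⟨a, ?_⟩
      have h3 : 1 / (((φ m : ℕ) : ℝ) + 1) ≤ 1 / ((m : ℝ) + 1) := by
        have : (m : ℝ) ≤ (φ m : ℝ) := by exact_mod_cast hφ.id_le m
        gcongr
      calc dist (h r z₀) (p ^ a • x) ≤ dist (h r z₀) (h r (z (φ m))) +
            dist (h r (z (φ m))) (p ^ a • x) := dist_triangle _ _ _
        _ < ε / 2 + ε / 2 := by
            refine add_lt_add ?_ (ha.trans_le (h3.trans hm2.le))
            rw [dist_comm]; exact hm1
        _ = ε := by ring
  rw [key]
  refine MeasurableSet.iInter fun m => MeasurableSet.biUnion hDc fun z _ =>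
    MeasurableSet.iInter fun r => MeasurableSet.iUnion fun a => ?_
  exact (isOpen_lt (continuous_const.dist (continuous_const_smul (p ^ a))) continuous_const).measurableSet

theorem meas_F (p l j : ℕ) : MeasurableSet {x : T | (F p l j x).Nonempty} := by
  have h := mea_gen (Z := T) (R := Fin (j + 1)) p
    (fun i u => u + ((((i : ℕ) : ℝ) / (l : ℝ) : ℝ) : T)) (fun i => continuous_add_const _)
  have e : {x : T | (F p l j x).Nonempty} =
      {x : T | ∃ z : T, ∀ i : Fin (j + 1), z + ((((i : ℕ) : ℝ) / (l : ℝ) : ℝ) : T) ∈ K p x} := by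
    ext x
    constructor
    · rintro ⟨u, hu⟩
      exact ⟨u, fun i => hu i (Nat.lt_succ_iff.1 i.2)⟩
    · rintro ⟨u, hu⟩
      exact ⟨u, fun i hi => hu ⟨i, Nat.lt_succ_iff.2 hi⟩⟩
  rw [e]
  exact h

theorem meas_diff (p l j : ℕ) {C : Set T} (hC : IsClosed C) :
    MeasurableSet {x : T | ∃ v ∈ F p l j x, ∃ v' ∈ F p l j x, v' - v ∈ C} := by
  have hS : IsClosed {z : T × T | z.2 - z.1 ∈ C} := hC.preimage (continuous_snd.sub continuous_fst)
  have : CompactSpace {z : T × T | z.2 - z.1 ∈ C} := isCompact_iff_compactSpace.1 hS.isCompact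
  have h := mea_gen (Z := {z : T × T | z.2 - z.1 ∈ C}) (R := Fin (j + 1) × Bool) p
    (fun i z => (if i.2 = true then z.1.1 else z.1.2) + ((((i.1 : ℕ) : ℝ) / (l : ℝ) : ℝ) : T))
    (fun i => by
      by_cases hi : i.2 = true
      · simp only [hi, if_true]
        exact (continuous_fst.comp continuous_subtype_val).add_const _
      · simp only [hi]
        exact (continuous_snd.comp continuous_subtype_val).add_const _)
  have e : {x : T | ∃ v ∈ F p l j x, ∃ v' ∈ F p l j x, v' - v ∈ C} =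
      {x : T | ∃ z : {z : T × T | z.2 - z.1 ∈ C}, ∀ i : Fin (j + 1) × Bool,
        (if i.2 = true then z.1.1 else z.1.2) + ((((i.1 : ℕ) : ℝ) / (l : ℝ) : ℝ) : T) ∈ K p x} := by
    ext x
    constructor
    · rintro ⟨v, hv, v', hv', hC⟩
      refine ⟨⟨(v, v'), hC⟩, ?_⟩
      rintro ⟨i, b⟩
      cases b
      · exact hv' i (Nat.lt_succ_iff.1 i.2)
      · exact hv i (Nat.lt_succ_iff.1 i.2)
    · rintro ⟨⟨⟨v, v'⟩, hC⟩, hu⟩
      exact ⟨v, fun i hi => hu (⟨i, Nat.lt_succ_iff.2 hi⟩, true), v',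
        fun i hi => hu (⟨i, Nat.lt_succ_iff.2 hi⟩, false), hC⟩
  rw [e]
  exact h

theorem meas_ord : MeasurableSet {x : T | IsOfFinAddOrder x} := by
  have e : {x : T | IsOfFinAddOrder x} = ⋃ n : ℕ, {x : T | (n + 1) • x = 0} := by
    ext x
    simp only [Set.mem_ofPred_eq, Set.mem_iUnion]
    rw [isOfFinAddOrder_iff_nsmul_eq_zero]
    constructor
    · rintro ⟨n, hn, h⟩
      exact ⟨n - 1, by rwa [Nat.sub_add_cancel hn]⟩
    · rintro ⟨n, h⟩
      exact ⟨n + 1, Nat.succ_pos n, h⟩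
  rw [e]
  exact MeasurableSet.iUnion fun n =>
    (isClosed_singleton.preimage (continuous_const_smul (n + 1))).measurableSet

theorem meas_ZD {θ : T → T} (hθ : Measurable θ) {A : Set T} (hA : MeasurableSet A) :
    MeasurableSet {x : T | ZD {d | θ^[d] x ∈ A}} := by
  classical
  have e : {x : T | ZD {d | θ^[d] x ∈ A}} = ⋂ m : ℕ, ⋃ n₀ : ℕ, ⋂ n : ℕ, ⋂ _ : n₀ ≤ n,
      {x : T | (cnt {d | θ^[d] x ∈ A} n : ℝ) ≤ 1 / ((m : ℝ) + 1) * n} := by
    ext x
    simp only [Set.mem_ofPred_eq, Set.mem_iInter, Set.mem_iUnion]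
    constructor
    · intro h m
      exact h _ (by positivity)
    · intro h η hη
      obtain ⟨m, hm⟩ := exists_nat_one_div_lt hη
      obtain ⟨n₀, hn₀⟩ := h m
      refine ⟨n₀, fun n hn => (hn₀ n hn).trans ?_⟩
      gcongr
  rw [e]
  refine MeasurableSet.iInter fun m => MeasurableSet.iUnion fun n₀ => MeasurableSet.iInter fun n =>
    MeasurableSet.iInter fun _ => ?_
  refine measurableSet_le ?_ measurable_const
  have h8 : (fun x : T => (cnt {d | θ^[d] x ∈ A} n : ℝ))
      = fun x => ∑ d ∈ Finset.range n, A.indicator (fun _ => (1 : ℝ)) (θ^[d] x) := by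
    funext x
    unfold cnt
    rw [← Finset.sum_boole]
    refine Finset.sum_congr rfl fun d _ => ?_
    by_cases hd : θ^[d] x ∈ A
    · rw [Set.indicator_of_mem hd]
      simp [hd]
    · rw [Set.indicator_of_notMem hd]
      simp [hd]
  rw [h8]
  exact Finset.measurable_sum _ fun d _ => (measurable_const.indicator hA).comp (hθ.iterate d)

end Pool.Agent.NSet
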