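import Pool.Agent.NSet.Small
import Pool.Agent.NSet.Orb

/-!
Module NR (part (a) of section 4). PROOF: suppose `r ∈ K p x` and `M • r = 0`, `M ≥ 1`. `N = image of E under M` is
compact and null (`null_inv`, `null_image`). Let `η > 0`, `n₀` from `small` (with `β = p`, `γ = q`), `n ≥ n₀`, `ρ` from it.
As `r` is in the closure of `{p ^ a • x}` there is `a` with `‖p ^ a • x - r‖ < ρ / M`, so `w = M • p ^ a • x` has
`‖w‖ < ρ`, and `w ≠ 0` because `x` is not of finite order. `D = {d < n | q ^ d • x ∈ E}`: for `d ∈ D`, `k` any: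
`(p ^ k * q ^ d) • w = M • (p ^ (k + a) • (q ^ d • x))` is in `N`, as `E` is invariant under `p`. So
`cnt {d | q ^ d • x ∈ E} n ≤ η n` for all `n ≥ n₀`: `ZD`, contradiction.
-/

open MeasureTheory Filter Topology Set

namespace Pool.Agent.NSet

theorem no_rat {p q : ℕ} (h : MI p q) {E : Set T} (hE : IsClosed E) (hne : E ≠ univ)
    (hpE : ∀ x ∈ E, p • x ∈ E) {x : T} (hx : ¬ IsOfFinAddOrder x) (hD : ¬ ZD {d | q ^ d • x ∈ E}) {r : T}
    (hr : r ∈ K p x) : ¬ IsOfFinAddOrder r := by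
  classical
  intro hfin
  obtain ⟨M, hM, hMr⟩ := isOfFinAddOrder_iff_nsmul_eq_zero.1 hfin
  have hp2 : 2 ≤ p := h.1
  have hE0 : volume E = 0 := null_inv hp2 hE hne hpE
  have hN : IsClosed ((fun x : T => M • x) '' E) :=
    (hE.isCompact.image (continuous_const_smul M)).isClosed
  have hN0 : volume ((fun x : T => M • x) '' E) = 0 := null_image hM hE0
  have hpk : ∀ (k : ℕ) (y : T), y ∈ E → p ^ k • y ∈ E := by
    intro k
    induction k with
    | zero => intro y hy; rwa [pow_zero, one_smul]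
    | succ k ih =>
      intro y hy
      rw [pow_succ', mul_smul]
      exact hpE _ (ih y hy)
  apply hD
  intro η hη
  obtain ⟨n₀, hn₀⟩ := small h hN hN0 hη
  refine ⟨n₀, fun n hn => ?_⟩
  obtain ⟨ρ, hρ, hsm⟩ := hn₀ n hn
  have hM0 : (0 : ℝ) < M := by exact_mod_cast hM
  obtain ⟨_, ⟨a, rfl⟩, hdist⟩ := Metric.mem_closure_iff.1 hr (ρ / M) (by positivity)
  have hw : ‖M • p ^ a • x‖ < ρ := by
    have h1 : M • p ^ a • x = M • (p ^ a • x - r) := by
      rw [smul_sub, hMr, sub_zero]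
    rw [h1]
    refine (norm_nsmul_le).trans_lt ?_
    rw [dist_comm, dist_eq_norm] at hdist
    rw [lt_div_iff₀ hM0] at hdist
    rw [mul_comm]
    exact hdist
  have hw0 : M • p ^ a • x ≠ 0 := by
    intro h0
    apply hx
    rw [isOfFinAddOrder_iff_nsmul_eq_zero]
    refine ⟨M * p ^ a, Nat.mul_pos hM (Nat.pow_pos (by omega)), ?_⟩
    rw [mul_smul]
    exact h0
  have h2 := hsm _ hw0 hw ((Finset.range n).filter fun d => d ∈ {d | q ^ d • x ∈ E}) ?_
  · unfold cnt
    convert h2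
  · intro d hd
    obtain ⟨hd1, hd2⟩ := Finset.mem_filter.1 hd
    refine ⟨Finset.mem_range.1 hd1, fun k => ?_⟩
    refine ⟨p ^ (k + a) • q ^ d • x, hpk _ _ hd2, ?_⟩
    show M • p ^ (k + a) • q ^ d • x = (p ^ k * q ^ d) • M • p ^ a • x
    simp only [smul_smul]
    congr 1
    ring

end Pool.Agent.NSet
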