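import Pool.Agent.NSet.Defs

/-!
Module NE. Three families of closed null sets.
(1) `null_inv`: a closed set `E ≠ T` with `p E ⊆ E` is null. PROOF: `E ⊆ p⁻¹ E`, and `x ↦ p x` preserves `volume`
(`AddCircle.ergodic_nsmul`, also `Ergodic.toMeasurePreserving`), so `p⁻¹ E = E` a.e.
(`ae_eq_of_subset_of_measure_ge`); ergodicity (`Ergodic.ae_empty_or_univ₀` or `PreErgodic.ae_empty_or_univ` for the
measurable set after `QuasiErgodic.ae_empty_or_univ₀`): `E` is null or conull; the complement is open and nonempty, so it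
has positive measure (`IsOpen.measure_pos`), so `E` is null. (2) `null_avoid`: apply (1) to
`E = {z | ∀ k, b ^ k • z ∉ J}`, closed, `≠ T` because a point of `J` is not in it (`k = 0`), and `b E ⊆ E`.
(3) `null_image`: the image of a null set under `x ↦ M x`, `M ≥ 1`, is null. PROOF: `T` is the union of the `M` arcs
`[i / M, (i + 1) / M)`; or: lift to `ℝ`. `N' = {t : ℝ | (t : T) ∈ N}` is null in `ℝ` (`AddCircle.measurePreserving_mk`
and periodicity: `N' ∩ Ioc a (a + 1)` is null for all `a`), `M • N'` is null (`Real.volume_preimage_mul_left` /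
`Measure.addHaar_smul`), and the image of `N` is contained in the image of `M • N'` in `T`; the image in `T` of a null set
`S` of `ℝ` is null (`S = ⋃ S ∩ Ioc n (n + 1)`; translate to `Ioc 0 1`, `AddCircle.measurePreserving_mk`).
Please prove also the two auxiliary statements `lift_null`, `proj_null` below, they are used elsewhere.
-/

open MeasureTheory Filter Topology Set

namespace Pool.Agent.NSet

private theorem cover_Ioc (t : ℝ) : ∃ n : ℤ, t ∈ Ioc (n : ℝ) ((n : ℝ) + 1) :=
  ⟨⌈t⌉ - 1, by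
    have h1 := Int.le_ceil t
    have h2 := Int.ceil_lt_add_one t
    push_cast
    constructor <;> linarith⟩

theorem lift_null {N : Set T} (h0 : volume N = 0) : volume {t : ℝ | (t : T) ∈ N} = 0 := by
  have h1 : ∀ n : ℤ, volume ({t : ℝ | (t : T) ∈ N} ∩ Ioc (n : ℝ) ((n : ℝ) + 1)) = 0 := by
    intro n
    have h2 := (AddCircle.measurePreserving_mk (1 : ℝ) (n : ℝ)).quasiMeasurePreserving.preimage_null
      h0
    rwa [Measure.restrict_apply' measurableSet_Ioc] at h2
  refine measure_mono_null (fun t ht => ?_) (measure_iUnion_null h1)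
  obtain ⟨n, hn⟩ := cover_Ioc t
  exact mem_iUnion.2 ⟨n, ht, hn⟩

theorem proj_null {S : Set ℝ} (h0 : volume S = 0) : volume ((fun t : ℝ => (t : T)) '' S) = 0 := by
  have h1 : ∀ n : ℤ, volume ((AddCircle.equivIoc (1 : ℝ) (n : ℝ)) ⁻¹'
      ((Subtype.val : Ioc (n : ℝ) ((n : ℝ) + 1) → ℝ) ⁻¹' S)) = 0 := by
    intro n
    refine (AddCircle.measurePreserving_equivIoc (T := (1 : ℝ)) (a := (n : ℝ))).quasiMeasurePreserving.preimage_null
      ?_
    have hm := measurableSet_toMeasurable volume S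
    refine measure_mono_null (preimage_mono (subset_toMeasurable volume S)) ?_
    rw [Measure.comap_apply _ Subtype.val_injective (fun _ => measurableSet_Ioc.subtype_image) _
      (measurable_subtype_coe hm)]
    refine measure_mono_null (image_preimage_subset _ _) ?_
    rw [measure_toMeasurable, h0]
  refine measure_mono_null ?_ (measure_iUnion_null h1)
  rintro _ ⟨t, ht, rfl⟩
  obtain ⟨n, hn⟩ := cover_Ioc t
  refine mem_iUnion.2 ⟨n, ?_⟩
  show ((AddCircle.equivIoc (1 : ℝ) (n : ℝ) (t : T) : ℝ)) ∈ S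
  rw [AddCircle.equivIoc_coe_of_mem hn]
  exact ht

theorem null_inv {p : ℕ} (hp : 2 ≤ p) {E : Set T} (hE : IsClosed E) (hne : E ≠ univ)
    (hpE : ∀ x ∈ E, p • x ∈ E) : volume E = 0 := by
  have herg : Ergodic (fun y : T => p • y) volume := AddCircle.ergodic_nsmul (by omega)
  have h1 := herg.ae_empty_or_univ_of_ae_le_preimage' hE.measurableSet.nullMeasurableSet
    (LE.le.eventuallyLE (show E ≤ (fun y : T => p • y) ⁻¹' E from fun x hx => hpE x hx))
    (measure_ne_top _ _)
  rcases h1 with h1 | h1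
  · rw [measure_congr h1, measure_empty]
  · exfalso
    have h2 : volume Eᶜ = 0 := by
      rw [measure_congr h1.compl, compl_univ, measure_empty]
    have h3 : Eᶜ.Nonempty := nonempty_compl.2 hne
    exact (hE.isOpen_compl.measure_pos volume h3).ne' h2

theorem null_avoid {b : ℕ} (hb : 2 ≤ b) {J : Set T} (hJ : IsOpen J) (hne : J.Nonempty) :
    IsClosed {z : T | ∀ k : ℕ, b ^ k • z ∉ J} ∧ volume {z : T | ∀ k : ℕ, b ^ k • z ∉ J} = 0 := by
  have hc : IsClosed {z : T | ∀ k : ℕ, b ^ k • z ∉ J} := by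
    have h1 : {z : T | ∀ k : ℕ, b ^ k • z ∉ J} = ⋂ k : ℕ, (fun z : T => b ^ k • z) ⁻¹' Jᶜ := by
      ext z
      simp
    rw [h1]
    exact isClosed_iInter fun k => hJ.isClosed_compl.preimage (continuous_const_smul _)
  refine ⟨hc, null_inv hb hc ?_ ?_⟩
  · intro h
    obtain ⟨z, hz⟩ := hne
    have h1 : z ∈ {z : T | ∀ k : ℕ, b ^ k • z ∉ J} := by
      rw [h]
      trivial
    exact h1 0 (by rwa [pow_zero, one_smul])
  · intro z hz k
    have h1 := hz (k + 1)
    rwa [pow_succ, mul_smul] at h1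

theorem null_image {M : ℕ} (hM : 0 < M) {N : Set T} (h0 : volume N = 0) :
    volume ((fun x : T => M • x) '' N) = 0 := by
  have h1 : volume ((fun t : ℝ => (M : ℝ) * t) '' {t : ℝ | (t : T) ∈ N}) = 0 :=
    addHaar_image_eq_zero_of_differentiableOn_of_addHaar_eq_zero volume
      (by fun_prop) (lift_null h0)
  refine measure_mono_null ?_ (proj_null h1)
  rintro _ ⟨x, hx, rfl⟩
  obtain ⟨t, rfl⟩ := QuotientAddGroup.mk_surjective x
  refine ⟨(M : ℝ) * t, ⟨t, hx, rfl⟩, ?_⟩
  show (((M : ℝ) * t : ℝ) : T) = M • (t : T)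
  rw [← AddCircle.coe_nsmul, nsmul_eq_mul]

end Pool.Agent.NSet
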