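import Pool.Agent.NSet.Step
import Pool.Agent.NSet.NoRat

/-!
Module P4 (section 4). The points of `E` which are not of finite order form a null set for every finite measure invariant
under `×q`.
-/

open MeasureTheory Filter Topology Set

namespace Pool.Agent.NSet

private theorem ord_iff {q : ℕ} (hq : 0 < q) (x : T) : IsOfFinAddOrder (q • x) ↔ IsOfFinAddOrder x := by
  constructor
  · intro h
    rw [isOfFinAddOrder_iff_nsmul_eq_zero] at h ⊢
    obtain ⟨n, hn, h⟩ := h
    refine ⟨n * q, by positivity, ?_⟩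
    rw [mul_nsmul']
    exact h
  · intro h
    exact h.nsmul

private theorem p4_iter (q : ℕ) (x : T) (d : ℕ) : (fun x : T => q • x)^[d] x = q ^ d • x := by
  induction d with
  | zero => simp
  | succ d ih =>
    rw [Function.iterate_succ_apply', ih, pow_succ, mul_comm, mul_nsmul']

/-- there is a modulus prime to `p` and `q`, larger than any given bound -/
private theorem exists_l {p q : ℕ} (hp : 0 < p) (hq : 0 < q) (B : ℕ) :
    ∃ l : ℕ, B < l ∧ p.Coprime l ∧ q.Coprime l := by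
  obtain ⟨l, hl, hpr⟩ := Nat.exists_infinite_primes (B + p + q + 1)
  refine ⟨l, by omega, ?_, ?_⟩
  · exact ((Nat.Prime.coprime_iff_not_dvd hpr).2 (fun h => by
      have := Nat.le_of_dvd hp h
      omega)).symm
  · exact ((Nat.Prime.coprime_iff_not_dvd hpr).2 (fun h => by
      have := Nat.le_of_dvd hq h
      omega)).symm

/-- Points `u + i / l`, `i < l`, meet every ball of radius `> 1 / l`. -/
private theorem coset_meets {l : ℕ} (hl : 0 < l) (u y : T) {ε : ℝ} (hε : 1 / (l : ℝ) < ε) :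
    ∃ i : ℕ, i ≤ l - 1 ∧ ‖u + ((((i : ℝ) / (l : ℝ) : ℝ)) : T) - y‖ < ε := by
  have hl' : (0 : ℝ) < l := by exact_mod_cast hl
  obtain ⟨t, ht, hte⟩ : ∃ t : ℝ, t ∈ Set.Ico (0 : ℝ) 1 ∧ (t : T) = y - u := by
    have : Fact ((0 : ℝ) < 1) := ⟨one_pos⟩
    have h1 := (AddCircle.equivIco (1 : ℝ) 0 (y - u)).2
    refine ⟨(AddCircle.equivIco (1 : ℝ) 0 (y - u) : ℝ), by simpa using h1, ?_⟩
    exact (AddCircle.equivIco (1 : ℝ) 0).symm_apply_apply (y - u)
  refine ⟨⌊t * l⌋₊, ?_, ?_⟩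
  · have h1 : ⌊t * l⌋₊ < l := by
      rw [Nat.floor_lt (by have := ht.1; positivity)]
      nlinarith [ht.2]
    omega
  · have h2 := Nat.floor_le (a := t * l) (by have := ht.1; positivity)
    have h3 := Nat.lt_floor_add_one (t * l)
    have e : u + ((((⌊t * l⌋₊ : ℕ) : ℝ) / (l : ℝ) : ℝ) : T) - y =
        (((((⌊t * l⌋₊ : ℕ) : ℝ) / (l : ℝ)) - t : ℝ) : T) := by
      rw [AddCircle.coe_sub, hte]
      abel
    rw [e]
    refine lt_of_le_of_lt ?_ hε
    have h4 : ‖(((((⌊t * l⌋₊ : ℕ) : ℝ) / (l : ℝ)) - t : ℝ) : T)‖ ≤ |(((⌊t * l⌋₊ : ℕ) : ℝ) / (l : ℝ)) - t| := by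
      rw [AddCircle.norm_eq, inv_one, one_mul, mul_one]
      have := round_le (((⌊t * l⌋₊ : ℕ) : ℝ) / (l : ℝ) - t) 0
      simpa using this
    refine h4.trans ?_
    rw [abs_le]
    constructor
    · rw [neg_le_sub_iff_le_add, ← sub_le_iff_le_add']
      have : t < (((⌊t * l⌋₊ : ℕ) : ℝ) + 1) / l := by
        rw [lt_div_iff₀ hl']; exact h3
      have h5 : (((⌊t * l⌋₊ : ℕ) : ℝ) + 1) / l = ((⌊t * l⌋₊ : ℕ) : ℝ) / l + 1 / l := by ring
      linarith
    · have : ((⌊t * l⌋₊ : ℕ) : ℝ) / l ≤ t := by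
        rw [div_le_iff₀ hl']; exact h2
      have : 0 < 1 / (l : ℝ) := by positivity
      linarith

theorem null_irr {p q : ℕ} (h : MI p q) {E : Set T} (hE : IsClosed E) (hne : E ≠ univ)
    (hpE : ∀ x ∈ E, p • x ∈ E) (μ : Measure T) [IsFiniteMeasure μ]
    (hμ : MeasurePreserving (fun x : T => q • x) μ μ) : μ {x ∈ E | ¬ IsOfFinAddOrder x} = 0 := by
  obtain ⟨hp2, hq2, -⟩ := id h
  have hp0 : 0 < p := by omega
  have hq0 : 0 < q := by omega
  set θ : T → T := fun x => q • x with hθ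
  have hθm : Measurable θ := hμ.measurable
  have hit : ∀ (d : ℕ) (x : T), θ^[d] x = q ^ d • x := fun d x => p4_iter q x d
  set W : Set T := {x | ¬ IsOfFinAddOrder x ∧ ¬ ZD {d | θ^[d] x ∈ E}} with hW
  have hWm : MeasurableSet W := (meas_ord.compl).inter (meas_ZD hθm hE.measurableSet).compl
  have hWi : θ ⁻¹' W = W := by
    ext x
    simp only [hW, mem_preimage, mem_ofPred_eq]
    have h1 : IsOfFinAddOrder (θ x) ↔ IsOfFinAddOrder x := ord_iff hq0 x
    have h2 : ZD {d | θ^[d] (θ x) ∈ E} ↔ ZD {d | θ^[d] x ∈ E} := by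
      have : {d | θ^[d] (θ x) ∈ E} = {d | d + 1 ∈ {d | θ^[d] x ∈ E}} := by
        ext d
        simp only [mem_ofPred_eq, Function.iterate_succ_apply]
      rw [this]
      exact cnt_shift _
    rw [h1, h2]
  by_contra hcon
  have hWpos : μ W ≠ 0 := by
    intro h0
    apply hcon
    have h1 := returns hμ hE.measurableSet
    have h2 : {x ∈ E | ¬ IsOfFinAddOrder x} ⊆ W ∪ {x | ¬ (x ∈ E → ¬ ZD {d | θ^[d] x ∈ E})} := by
      rintro x ⟨hxE, hx⟩
      by_cases hz : ZD {d | θ^[d] x ∈ E}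
      · right
        simp only [mem_ofPred_eq]
        exact fun h => h hxE hz
      · left
        exact ⟨hx, hz⟩
    exact measure_mono_null h2 (measure_union_null h0 h1)
  set ν : Measure T := μ.restrict W with hν
  have hνf : IsFiniteMeasure ν := by rw [hν]; infer_instance
  have hνp : MeasurePreserving θ ν ν := by
    have h1 := hμ.restrict_preimage hWm
    rw [hWi] at h1
    exact h1
  have hνW : ∀ᵐ x ∂ν, x ∈ W := ae_restrict_mem hWm
  have hνr : ∀ᵐ x ∂ν, ∀ r ∈ K p x, ¬ IsOfFinAddOrder r := by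
    filter_upwards [hνW] with x hx r hr
    have h2 : ¬ ZD {d | q ^ d • x ∈ E} := by
      have := hx.2
      simp only [hit] at this
      exact this
    exact no_rat h hE hne hpE hx.1 h2 hr
  -- the gap of E
  obtain ⟨y, hy⟩ : ∃ y, y ∉ E := by
    by_contra hh
    push Not at hh
    exact hne (eq_univ_of_forall hh)
  obtain ⟨ε, hε, hball⟩ := Metric.isOpen_iff.1 hE.isOpen_compl y hy
  obtain ⟨B, hB⟩ := exists_nat_gt (1 / ε)
  obtain ⟨l, hlB, hpl, hql⟩ := exists_l hp0 hq0 B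
  have hl0 : 0 < l := by omega
  have hl1 : 1 / (l : ℝ) < ε := by
    have h1 : 1 / ε < l := hB.trans (by exact_mod_cast hlB)
    rw [div_lt_iff₀ hε] at h1
    rw [div_lt_iff₀ (by positivity)]
    linarith
  obtain ⟨L, hL, hpL, hqL⟩ := exists_L hpl hql
  have hF := step h hl0 hL hpL hqL ν hνp hνr (l - 1)
  have hK : ∀ᵐ x ∂ν, ¬ K p x ⊆ E := by
    filter_upwards [hF] with x hx hsub
    obtain ⟨u, hu⟩ := hx
    obtain ⟨i, hi, hi2⟩ := coset_meets hl0 u y hl1
    have h1 := hsub (hu i hi)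
    have h2 := hball (show u + ((((i : ℝ) / (l : ℝ) : ℝ)) : T) ∈ Metric.ball y ε by
      rw [Metric.mem_ball, dist_eq_norm]; exact hi2)
    exact h2 h1
  have hKd : ∀ᵐ x ∂ν, ∀ d : ℕ, ¬ K p (θ^[d] x) ⊆ E := by
    rw [ae_all_iff]
    intro d
    exact (hνp.iterate d).quasiMeasurePreserving.ae hK
  have hfalse : ∀ᵐ x ∂ν, False := by
    filter_upwards [hKd, hνW] with x hx1 hx2
    apply hx2.2
    have : {d | θ^[d] x ∈ E} = ∅ := by
      ext d
      simp only [mem_ofPred_eq, mem_empty_iff_false, iff_false]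
      intro hd
      exact hx1 d (K_sub hE hpE hd)
    rw [this]
    intro η hη
    refine ⟨0, fun n _ => ?_⟩
    have : cnt ∅ n = 0 := by simp [cnt]
    rw [this]
    push_cast
    positivity
  rw [ae_iff] at hfalse
  simp only [not_false_eq_true, ofPred_true] at hfalse
  apply hWpos
  rw [hν] at hfalse
  rw [← hfalse]
  simp

end Pool.Agent.NSet
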