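import Pool.Agent.NSet.Defs

/-!
Module RET (Lemma 2 of the text). For a measure preserving map the set of times at which a point `x` of `A` returns to `A`
has not density zero, for a.e. `x ∈ A`. PROOF: `V = {x | ZD {d | θ^[d] x ∈ A}}` is measurable (`ZD` can be written with
`η = 1 / (j + 1)`, countable unions and intersections of the sets `{x | cnt {d | θ^[d] x ∈ A} n ≤ η n}`; `cnt` is a finite
sum of indicators; `ν` is the only measure, so it is enough that `θ` is measurable) and `θ⁻¹ V = V` (shifting by one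
changes `cnt` by at most one; `cnt_shift` below). For all `n ≥ 1`: `ν (A ∩ V) = ∫_V 1_A = ∫_V (1 / n) ∑_{d < n} 1_A ∘ θ^[d]`
(`MeasurePreserving` of `θ^[d]`, `θ^[d]⁻¹ V = V`), and the integrand `cnt .. n / n ≤ 1` tends to `0` at every point of `V`:
dominated convergence gives `ν (A ∩ V) = 0`.
-/

open MeasureTheory Filter Topology Set

namespace Pool.Agent.NSet

private theorem cnt_le (D : Set ℕ) (n : ℕ) : cnt {d | d + 1 ∈ D} n ≤ cnt D n + 1 := by
  classical
  unfold cnt
  have h1 : ((Finset.range n).filter fun d => d ∈ {d | d + 1 ∈ D}).image Nat.succ ⊆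
      insert n ((Finset.range n).filter fun d => d ∈ D) := by
    intro m hm
    obtain ⟨d, hd, rfl⟩ := Finset.mem_image.1 hm
    obtain ⟨hd1, hd2⟩ := Finset.mem_filter.1 hd
    rw [Finset.mem_range] at hd1
    rcases Nat.lt_or_ge (d + 1) n with h | h
    · exact Finset.mem_insert_of_mem (Finset.mem_filter.2 ⟨Finset.mem_range.2 h, hd2⟩)
    · exact Finset.mem_insert.2 (Or.inl (by
        show d + 1 = n
        omega))
  have h2 := Finset.card_le_card h1
  rw [Finset.card_image_of_injective _ Nat.succ_injective] at h2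
  refine le_trans (le_of_eq ?_) (h2.trans (Finset.card_insert_le _ _))
  congr!

private theorem cnt_ge (D : Set ℕ) (n : ℕ) : cnt D n ≤ cnt {d | d + 1 ∈ D} n + 1 := by
  classical
  unfold cnt
  have h1 : ((Finset.range n).filter fun d => d ∈ D) ⊆
      insert 0 (((Finset.range n).filter fun d => d ∈ {d | d + 1 ∈ D}).image Nat.succ) := by
    intro m hm
    obtain ⟨hm1, hm2⟩ := Finset.mem_filter.1 hm
    rw [Finset.mem_range] at hm1
    rcases m with _ | d
    · exact Finset.mem_insert_self _ _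
    · exact Finset.mem_insert_of_mem (Finset.mem_image.2 ⟨d, Finset.mem_filter.2
        ⟨Finset.mem_range.2 (by omega), hm2⟩, rfl⟩)
  have h2 := (Finset.card_le_card h1).trans (Finset.card_insert_le _ _)
  rw [Finset.card_image_of_injective _ Nat.succ_injective] at h2
  refine le_trans (le_of_eq ?_) (h2.trans (le_of_eq ?_)) <;> congr!

private theorem zd_of {D D' : Set ℕ} (h : ∀ n, cnt D' n ≤ cnt D n + 1) (hD : ZD D) : ZD D' := by
  intro η hη
  obtain ⟨n₀, h0⟩ := hD (η / 2) (by positivity)
  refine ⟨max n₀ ⌈2 / η⌉₊, fun n hn => ?_⟩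
  have h1 := h0 n ((le_max_left _ _).trans hn)
  have h2 : 2 / η ≤ n := (Nat.le_ceil _).trans (by exact_mod_cast (le_max_right _ _).trans hn)
  have h3 : ((cnt D' n : ℕ) : ℝ) ≤ (cnt D n : ℝ) + 1 := by exact_mod_cast h n
  rw [div_le_iff₀ hη] at h2
  linarith

theorem cnt_shift (D : Set ℕ) : ZD {d | d + 1 ∈ D} ↔ ZD D :=
  ⟨zd_of (cnt_ge D), zd_of (cnt_le D)⟩

private theorem zd_iff (D : Set ℕ) : ZD D ↔ ∀ j : ℕ, ∃ n₀ : ℕ, ∀ n ≥ n₀,
    (cnt D n : ℝ) ≤ 1 / ((j : ℝ) + 1) * n := by
  constructor
  · intro h j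
    exact h _ (by positivity)
  · intro h η hη
    obtain ⟨j, hj⟩ := exists_nat_one_div_lt hη
    obtain ⟨n₀, h0⟩ := h j
    refine ⟨n₀, fun n hn => (h0 n hn).trans ?_⟩
    exact mul_le_mul_of_nonneg_right hj.le (Nat.cast_nonneg n)

private theorem zd_tendsto {D : Set ℕ} (h : ZD D) :
    Tendsto (fun n : ℕ => (cnt D n : ℝ) / n) atTop (𝓝 0) := by
  rw [Metric.tendsto_atTop]
  intro ε hε
  obtain ⟨n₀, h0⟩ := h (ε / 2) (by positivity)
  refine ⟨max n₀ 1, fun n hn => ?_⟩
  have hn1 : (1 : ℝ) ≤ n := by exact_mod_cast (le_max_right _ _).trans hn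
  have h1 := h0 n ((le_max_left _ _).trans hn)
  rw [Real.dist_eq, sub_zero, abs_of_nonneg (by positivity), div_lt_iff₀ (by linarith)]
  have : ε / 2 * n < ε * n := by nlinarith
  linarith

theorem returns {X : Type} [MeasurableSpace X] {ν : Measure X} [IsFiniteMeasure ν] {θ : X → X}
    (hθ : MeasurePreserving θ ν ν) {A : Set X} (hA : MeasurableSet A) :
    ∀ᵐ x ∂ν, x ∈ A → ¬ ZD {d | θ^[d] x ∈ A} := by
  classical
  have hmeas : ∀ d, Measurable θ^[d] := fun d => hθ.measurable.iterate d
  have hcnt : ∀ (n : ℕ) (x : X), (cnt {d | θ^[d] x ∈ A} n : ℝ) =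
      ∑ d ∈ Finset.range n, A.indicator (fun _ => (1 : ℝ)) (θ^[d] x) := by
    intro n x
    unfold cnt
    rw [Finset.card_filter, Nat.cast_sum]
    refine Finset.sum_congr rfl fun d _ => ?_
    by_cases h : θ^[d] x ∈ A
    · rw [Set.indicator_of_mem h, if_pos (show d ∈ {d | θ^[d] x ∈ A} from h), Nat.cast_one]
    · rw [Set.indicator_of_notMem h, if_neg (show d ∉ {d | θ^[d] x ∈ A} from h), Nat.cast_zero]
  have hcm : ∀ n : ℕ, Measurable fun x : X => (cnt {d | θ^[d] x ∈ A} n : ℝ) := by
    intro n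
    simp only [hcnt]
    exact Finset.measurable_fun_sum _ fun d _ =>
      (measurable_const.indicator hA).comp (hmeas d)
  set V : Set X := {x | ZD {d | θ^[d] x ∈ A}} with hVdef
  have hV : MeasurableSet V := by
    have h1 : V = ⋂ j : ℕ, ⋃ n₀ : ℕ, ⋂ n : ℕ, ⋂ _ : n₀ ≤ n,
        {x : X | (cnt {d | θ^[d] x ∈ A} n : ℝ) ≤ 1 / ((j : ℝ) + 1) * n} := by
      ext x
      simp only [hVdef, mem_setOf_eq, zd_iff, mem_iInter, mem_iUnion]
    rw [h1]
    exact MeasurableSet.iInter fun j => MeasurableSet.iUnion fun n₀ => MeasurableSet.iInter fun n =>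
      MeasurableSet.iInter fun _ => measurableSet_le (hcm n) measurable_const
  have hVinv : ∀ d, θ^[d] ⁻¹' V = V := by
    have h1 : θ ⁻¹' V = V := by
      ext x
      have h2 : {d | θ^[d] (θ x) ∈ A} = {d | d + 1 ∈ {d | θ^[d] x ∈ A}} := by
        ext d
        simp only [mem_setOf_eq, Function.iterate_succ_apply]
      show ZD {d | θ^[d] (θ x) ∈ A} ↔ ZD {d | θ^[d] x ∈ A}
      rw [h2, cnt_shift]
    intro d
    induction d with
    | zero => rfl
    | succ d ih => rw [Function.iterate_succ, preimage_comp, ih, h1]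
  have hint : ∀ n : ℕ, 1 ≤ n → ∫ x in V, (cnt {d | θ^[d] x ∈ A} n : ℝ) / n ∂ν = ν.real (A ∩ V) := by
    intro n hn
    have hn0 : (n : ℝ) ≠ 0 := by
      have : (0 : ℝ) < n := by exact_mod_cast hn
      exact this.ne'
    rw [integral_div]
    simp only [hcnt]
    rw [integral_finsetSum]
    · have h1 : ∀ d ∈ Finset.range n, ∫ x in V, A.indicator (fun _ => (1 : ℝ)) (θ^[d] x) ∂ν =
          ν.real (A ∩ V) := by
        intro d _
        have h2 : (fun x => A.indicator (fun _ => (1 : ℝ)) (θ^[d] x)) =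
            (θ^[d] ⁻¹' A).indicator fun _ => (1 : ℝ) := by
          funext x
          by_cases h : θ^[d] x ∈ A
          · rw [Set.indicator_of_mem h, Set.indicator_of_mem (show x ∈ θ^[d] ⁻¹' A from h)]
          · rw [Set.indicator_of_notMem h, Set.indicator_of_notMem (show x ∉ θ^[d] ⁻¹' A from h)]
        rw [h2, integral_indicator (hmeas d hA), setIntegral_const, smul_eq_mul, mul_one,
          measureReal_restrict_apply' hV]
        have h3 : θ^[d] ⁻¹' A ∩ V = θ^[d] ⁻¹' (A ∩ V) := by
          rw [preimage_inter, hVinv]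
        rw [h3, measureReal_def, (hθ.iterate d).measure_preimage (hA.inter hV).nullMeasurableSet]
        rfl
      rw [Finset.sum_congr rfl h1, Finset.sum_const, Finset.card_range, nsmul_eq_mul,
        mul_div_cancel_left₀ _ hn0]
    · intro d _
      refine Integrable.mono' (integrable_const (1 : ℝ))
        ((measurable_const.indicator hA).comp (hmeas d)).aestronglyMeasurable
        (Eventually.of_forall fun x => ?_)
      show ‖A.indicator (fun _ => (1 : ℝ)) (θ^[d] x)‖ ≤ 1
      by_cases h : θ^[d] x ∈ A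
      · rw [Set.indicator_of_mem h, norm_one]
      · rw [Set.indicator_of_notMem h, norm_zero]
        exact zero_le_one
  have hlim : Tendsto (fun n : ℕ => ∫ x in V, (cnt {d | θ^[d] x ∈ A} n : ℝ) / n ∂ν) atTop
      (𝓝 (∫ _x in V, (0 : ℝ) ∂ν)) := by
    refine tendsto_integral_of_dominated_convergence (fun _ => (1 : ℝ)) (fun n => ?_)
      (integrable_const _) (fun n => ?_) ?_
    · exact ((hcm n).div_const _).aestronglyMeasurable
    · refine Eventually.of_forall fun x => ?_
      rw [Real.norm_eq_abs, abs_of_nonneg (by positivity)]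
      refine div_le_one_of_le₀ ?_ (Nat.cast_nonneg n)
      have : cnt {d | θ^[d] x ∈ A} n ≤ n := by
        unfold cnt
        exact (Finset.card_filter_le _ _).trans (Finset.card_range n).le
      exact_mod_cast this
    · exact (ae_restrict_iff' hV).2 (Eventually.of_forall fun x hx => zd_tendsto hx)
  rw [integral_zero] at hlim
  have h0 : ν.real (A ∩ V) = 0 := by
    refine tendsto_nhds_unique (tendsto_const_nhds.congr' ?_) hlim
    filter_upwards [eventually_ge_atTop 1] with n hn
    exact (hint n hn).symm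
  rw [measureReal_eq_zero_iff] at h0
  rw [ae_iff]
  refine measure_mono_null (fun x hx => ?_) h0
  simp only [mem_setOf_eq, Classical.not_imp, not_not] at hx
  exact hx

end Pool.Agent.NSet
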