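import Pool.Agent.NSet.Weyl
import Pool.Agent.NSet.LogG

/-!
Module SM (Lemma 1 of the text). PROOF: `G` from `log_set` (base `β`), `n₀` from `weyl_null` for
`α = log γ / log β`, `G`, `η`. For `n ≥ n₀` take `ρ = 1 / (β * γ ^ n)` (also `≤ 1 / 2`). Let `0 < ‖w‖ < ρ`: there are a real
`ω > 0`, `ω = ‖w‖`, and a sign with `w = (± ω : T)` (write `w = (x : T)` with `|x| ≤ 1 / 2`, `‖w‖ = |x|`:
`AddCircle.norm_eq` / see Pool/Agent/Ord2/Eq2.lean `exists_rep`). For `d < n`: `γ ^ d * ω < 1 / β`, so there is `k ≥ 1` with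
`s = β ^ k * γ ^ d * ω ∈ [1 / β, 1)` (largest `k` with `β ^ k * γ ^ d * ω < 1`, `Nat.find` or `exists_nat_pow_near`).
If `d ∈ D` then `(β ^ k * γ ^ d) • w = (± s : T) ∈ N`, so `(log s / log β : T) ∈ G`, and
`log s / log β = k + d α + log ω / log β`, so modulo one it is `c + d • α` with `c = (log ω / log β : T)`. Hence
`D ⊆ {d < n | c + d • α ∈ G}` and `#D ≤ cnt .. n ≤ η n`.
-/

open MeasureTheory Filter Topology Set

namespace Pool.Agent.NSet

theorem small {β γ : ℕ} (h : MI β γ) {N : Set T} (hN : IsClosed N) (h0 : volume N = 0) {η : ℝ} (hη : 0 < η) :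
    ∃ n₀ : ℕ, ∀ n ≥ n₀, ∃ ρ : ℝ, 0 < ρ ∧ ∀ w : T, w ≠ 0 → ‖w‖ < ρ →
      ∀ D : Finset ℕ, (∀ d ∈ D, d < n ∧ ∀ k : ℕ, (β ^ k * γ ^ d) • w ∈ N) → (D.card : ℝ) ≤ η * n := by
  classical
  obtain ⟨hβ, hγ, hirr⟩ := h
  obtain ⟨G, hGc, hG0, hG⟩ := log_set hβ hN h0
  obtain ⟨n₀, hn₀⟩ := weyl_null hirr hGc hG0 hη
  have hβ1 : (1 : ℝ) < β := by exact_mod_cast (by omega : 1 < β)
  have hβ0 : (0 : ℝ) < β := by linarith
  have hγ1 : (1 : ℝ) < γ := by exact_mod_cast (by omega : 1 < γ)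
  have hγ0 : (0 : ℝ) < γ := by linarith
  have hL : 0 < Real.log β := Real.log_pos hβ1
  refine ⟨n₀, fun n hn => ⟨1 / ((β : ℝ) * (γ : ℝ) ^ n), by positivity, fun w hw0 hw D hD => ?_⟩⟩
  obtain ⟨x, hxw, hxn⟩ : ∃ x : ℝ, (x : T) = w ∧ |x| = ‖w‖ := by
    obtain ⟨y, rfl⟩ := QuotientAddGroup.mk_surjective w
    refine ⟨y - round y, ?_, ?_⟩
    · show ((y - (round y : ℝ) : ℝ) : T) = (y : T)
      rw [AddCircle.coe_sub, sub_eq_self]
      exact (AddCircle.coe_eq_zero_iff (1 : ℝ)).2 ⟨round y, by simp⟩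
    · have := AddCircle.norm_eq (p := (1 : ℝ)) (x := y)
      rw [inv_one, one_mul, mul_one] at this
      exact this.symm
  have hω : 0 < ‖w‖ := norm_pos_iff.2 hw0
  set ω := ‖w‖ with hωdef
  have hsub : D ⊆ (Finset.range n).filter fun d =>
      d ∈ {d : ℕ | ((Real.log ω / Real.log β : ℝ) : T) + d • ((Real.log γ / Real.log β : ℝ) : T) ∈ G} := by
    intro d hd
    obtain ⟨hdn, hdk⟩ := hD d hd
    refine Finset.mem_filter.2 ⟨Finset.mem_range.2 hdn, ?_⟩
    have h1 : (γ : ℝ) ^ d * ω < 1 / β := by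
      have h2 : (γ : ℝ) ^ d ≤ (γ : ℝ) ^ n := pow_le_pow_right₀ hγ1.le hdn.le
      have h3 : 0 < (γ : ℝ) ^ d := by positivity
      calc (γ : ℝ) ^ d * ω < (γ : ℝ) ^ d * (1 / ((β : ℝ) * (γ : ℝ) ^ n)) :=
            mul_lt_mul_of_pos_left hw h3
        _ ≤ (γ : ℝ) ^ n * (1 / ((β : ℝ) * (γ : ℝ) ^ n)) :=
            mul_le_mul_of_nonneg_right h2 (by positivity)
        _ = 1 / β := by field_simp
    have h0' : 0 < (γ : ℝ) ^ d * ω := by positivity
    have h4 : (1 : ℝ) ≤ 1 / ((γ : ℝ) ^ d * ω) := by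
      rw [le_div_iff₀ h0', one_mul]
      refine h1.le.trans ?_
      rw [div_le_one hβ0]
      exact hβ1.le
    obtain ⟨k, hk1, hk2⟩ := exists_nat_pow_near h4 hβ1
    set s : ℝ := (β : ℝ) ^ k * ((γ : ℝ) ^ d * ω) with hs
    have hs0 : 0 < s := by positivity
    have hs1 : s ≤ 1 := by
      rw [le_div_iff₀ h0'] at hk1
      exact hk1
    have hs2 : 1 / (β : ℝ) ≤ s := by
      rw [div_lt_iff₀ h0', pow_succ] at hk2
      rw [div_le_iff₀ hβ0, hs]
      nlinarith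
    have hmem : (s : T) ∈ N ∨ ((-s : ℝ) : T) ∈ N := by
      have h5 := hdk k
      rw [← hxw, ← AddCircle.coe_nsmul, nsmul_eq_mul] at h5
      push_cast at h5
      rcases abs_choice x with h6 | h6
      · left
        have h7 : s = (β : ℝ) ^ k * (γ : ℝ) ^ d * x := by
          rw [hs, ← hxn, h6]
          ring
        rw [h7]
        exact h5
      · right
        have h7 : -s = (β : ℝ) ^ k * (γ : ℝ) ^ d * x := by
          rw [hs, ← hxn, h6]
          ring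
        rw [h7]
        exact h5
    have h8 := hG s hs2 hs1 hmem
    have h9 : Real.log s / Real.log β = (k : ℝ) + (Real.log ω / Real.log β +
        d * (Real.log γ / Real.log β)) := by
      rw [hs, Real.log_mul (by positivity) (by positivity), Real.log_mul (by positivity)
        (by positivity), Real.log_pow, Real.log_pow]
      field_simp
      ring
    have h10 : ((k : ℝ) : T) = 0 := (AddCircle.coe_eq_zero_iff (1 : ℝ)).2 ⟨k, by simp⟩
    rw [h9, AddCircle.coe_add, h10, zero_add, AddCircle.coe_add] at h8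
    show ((Real.log ω / Real.log β : ℝ) : T) + d • ((Real.log γ / Real.log β : ℝ) : T) ∈ G
    rw [← AddCircle.coe_nsmul, nsmul_eq_mul]
    exact h8
  have h11 := hn₀ n hn ((Real.log ω / Real.log β : ℝ) : T)
  refine le_trans ?_ h11
  have h12 := Finset.card_le_card hsub
  unfold cnt
  exact_mod_cast h12

end Pool.Agent.NSet
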