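import Pool.Agent.NSet.Diff
import Pool.Agent.NSet.Ret
import Pool.Agent.NSet.Mea

/-!
Module ST (section 4 (b), the induction). `W` is the set of good points in the form of a hypothesis: a.e. point `x` has no
point of finite order in `K p x`. PROOF by induction on `j`. `j = 0`: `F_zero`, `K_self`. `j → j + 1`: let
`c = (1 / l : T)`. Suppose the set of `x` with `F p l (j + 1) x` empty has positive measure. For a.e. such `x`:
`F p l j x` is nonempty, and `c` is not a difference of two points of it (`F_succ`); the set of differences is compact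
(image of `F × F`), so for some `n` the closed ball `C n` of radius `1 / (n + 1)` with center `c` contains no difference.
So for some `n` the set `A n = {x | (F p l j x).Nonempty ∧ no difference in C n}` (measurable: `meas_F`, `meas_diff`) has
positive measure. `returns` with `θ = (q ^ L • ·)` (measure preserving, `θ^[d] x = q ^ (L d) • x`): there is `x ∈ A n`, with
no point of finite order in `K p x` and `¬ ZD {d | q ^ (L d) • x ∈ A n}`. Take `u ∈ F p l j x ⊆ K p x`, not of finite
order. `diff_dens` with `J` = open ball: the set `{d | no difference at q ^ (L d) x in J}` has density zero and contains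
`{d | q ^ (L d) • x ∈ A n}` (a subset of a set with `ZD` has `ZD`). Contradiction.
-/

open MeasureTheory Filter Topology Set

namespace Pool.Agent.NSet

private theorem ST_mono {D D' : Set ℕ} (hD : D ⊆ D') (h : ZD D') : ZD D := by
  intro η hη
  obtain ⟨n₀, h1⟩ := h η hη
  refine ⟨n₀, fun n hn => le_trans ?_ (h1 n hn)⟩
  have h2 : cnt D n ≤ cnt D' n := by
    unfold cnt
    refine Finset.card_le_card fun d hd => ?_
    simp only [Finset.mem_filter] at hd ⊢
    exact ⟨hd.1, hD hd.2⟩
  exact_mod_cast h2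

private theorem ST_iter (q a : ℕ) (x : T) : (fun x : T => q • x)^[a] x = q ^ a • x := by
  induction a with
  | zero => simp
  | succ a ih => rw [Function.iterate_succ_apply', ih, pow_succ', mul_smul]

private theorem ST_find (p l j : ℕ) (x : T)
    (h2 : ¬ (F p l (j + 1) x).Nonempty) :
    ∃ n : ℕ, ¬ ∃ v ∈ F p l j x, ∃ v' ∈ F p l j x,
      v' - v ∈ Metric.closedBall ((1 / (l : ℝ) : ℝ) : T) (1 / ((n : ℝ) + 1)) := by
  by_contra hcon
  push Not at hcon
  apply h2
  have hF : IsClosed (F p l j x) := F_closed p l j x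
  have hFc : IsCompact (F p l j x) := hF.isCompact
  have hD : IsCompact ((fun z : T × T => z.2 - z.1) '' (F p l j x ×ˢ F p l j x)) :=
    (hFc.prod hFc).image (by fun_prop)
  have hmem : ((1 / (l : ℝ) : ℝ) : T) ∈ (fun z : T × T => z.2 - z.1) '' (F p l j x ×ˢ F p l j x) := by
    rw [← hD.isClosed.closure_eq, Metric.mem_closure_iff]
    intro ε hε
    obtain ⟨n, hn⟩ := exists_nat_one_div_lt hε
    obtain ⟨v, hv, v', hv', hvv⟩ := hcon n
    refine ⟨v' - v, ⟨(v, v'), ⟨hv, hv'⟩, rfl⟩, ?_⟩
    rw [Metric.mem_closedBall, dist_comm] at hvv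
    linarith
  obtain ⟨⟨v, v'⟩, ⟨hv, hv'⟩, hvv⟩ := hmem
  simp only at hv hv' hvv
  refine ⟨v, F_succ hv ?_⟩
  rw [← hvv]
  simpa using hv'

theorem step {p q : ℕ} (h : MI p q) {l L : ℕ} (hl : 0 < l) (hL : 0 < L) (hp : p ^ L ≡ 1 [MOD l])
    (hq : q ^ L ≡ 1 [MOD l]) (ν : Measure T) [IsFiniteMeasure ν]
    (hν : MeasurePreserving (fun x : T => q • x) ν ν)
    (hW : ∀ᵐ x ∂ν, ∀ r ∈ K p x, ¬ IsOfFinAddOrder r) (j : ℕ) : ∀ᵐ x ∂ν, (F p l j x).Nonempty := by
  induction j with
  | zero =>
    refine Eventually.of_forall fun x => ⟨x, ?_⟩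
    rw [F_zero]
    simpa using K_self p x 0
  | succ j ih =>
    have key : ∀ n : ℕ, ∀ᵐ x ∂ν, x ∉ {x : T | (F p l j x).Nonempty} ∩
        {x : T | ∃ v ∈ F p l j x, ∃ v' ∈ F p l j x,
          v' - v ∈ Metric.closedBall ((1 / (l : ℝ) : ℝ) : T) (1 / ((n : ℝ) + 1))}ᶜ := by
      intro n
      have hA : MeasurableSet ({x : T | (F p l j x).Nonempty} ∩
        {x : T | ∃ v ∈ F p l j x, ∃ v' ∈ F p l j x,
          v' - v ∈ Metric.closedBall ((1 / (l : ℝ) : ℝ) : T) (1 / ((n : ℝ) + 1))}ᶜ) :=
        (meas_F p l j).inter (meas_diff p l j Metric.isClosed_closedBall).compl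
      have hθ : MeasurePreserving (fun x : T => q ^ L • x) ν ν := by
        have e1 : (fun x : T => q • x)^[L] = fun x : T => q ^ L • x := by
          funext x
          exact ST_iter q L x
        rw [← e1]
        exact hν.iterate L
      filter_upwards [hW, returns hθ hA] with x hx hret hxA
      obtain ⟨u, hu⟩ := hxA.1
      have hu0 := hx u (F_sub p l j x hu)
      refine hret hxA (ST_mono ?_ (diff_dens h hl hL hp hq hu hu0
        (J := Metric.ball ((1 / (l : ℝ) : ℝ) : T) (1 / ((n : ℝ) + 1))) Metric.isOpen_ball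
        (Metric.nonempty_ball.2 (by positivity))))
      intro d hd v hv v' hv' hmem
      have e1 : (fun x : T => q ^ L • x)^[d] x = q ^ (L * d) • x := by
        rw [pow_mul]
        exact ST_iter (q ^ L) d x
      have hd' : (fun x : T => q ^ L • x)^[d] x ∈ {x : T | (F p l j x).Nonempty} ∩
        {x : T | ∃ v ∈ F p l j x, ∃ v' ∈ F p l j x,
          v' - v ∈ Metric.closedBall ((1 / (l : ℝ) : ℝ) : T) (1 / ((n : ℝ) + 1))}ᶜ := hd
      rw [e1] at hd'
      exact hd'.2 ⟨v, hv, v', hv', Metric.ball_subset_closedBall hmem⟩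
    filter_upwards [ih, ae_all_iff.2 key] with x hx hall
    by_contra hcon
    obtain ⟨n, hn⟩ := ST_find p l j x hcon
    exact hall n ⟨hx, hn⟩

end Pool.Agent.NSet
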