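import Pool.Agent.NSet.Defs

/-!
Module WK. Limits of empirical measures. PROOF: `P i` = the mean of the Dirac measures at `q ^ b • y i`, `b < i` (for
`i = 0` any Dirac measure), a `ProbabilityMeasure T`; `ProbabilityMeasure T` is compact, so they converge along `U` to some
`μ` (see Pool/Agent/Half/Lim.lean, the same proof). Invariance: for continuous `f` the integrals of `f` and `f (q ·)`
with respect to `P i` differ by at most `2 ‖f‖ / i`, so `∫ f (q x) dμ = ∫ f dμ`, and
`ext_of_forall_integral_eq_of_IsFiniteMeasure` (see Pool/Agent/Half/Inv.lean). Closed sets: for `C` closed,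
`limsup P i C ≤ μ C` along `U` (`ProbabilityMeasure.limsup_measure_closed_le_of_tendsto` if it is available for all
filters; otherwise: continuous functions `f_m` with `1_C ≤ f_m ≤ 1`, `f_m → 1_C` pointwise, `thickenedIndicator`), so
`c ≤ P i C` for `U`-many `i` implies `c ≤ μ C`.
-/

open MeasureTheory Filter Topology Set
open scoped ENNReal

namespace Pool.Agent.NSet

private noncomputable def wkM (q : ℕ) (y : T) (i : ℕ) : Measure T :=
  (((i + 1 : ℕ) : ℝ≥0∞)⁻¹) • ∑ b ∈ Finset.range (i + 1), Measure.dirac (q ^ b • y)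

private theorem wkM_prob (q : ℕ) (y : T) (i : ℕ) : IsProbabilityMeasure (wkM q y i) := by
  constructor
  unfold wkM
  rw [Measure.smul_apply, Measure.finsetSum_apply]
  simp only [measure_univ, Finset.sum_const, smul_eq_mul, nsmul_eq_mul, mul_one,
    Finset.card_range]
  exact ENNReal.inv_mul_cancel (by simp) (ENNReal.natCast_ne_top _)

private theorem wkM_int (q : ℕ) (y : T) (i : ℕ) (f : C(T, ℝ)) :
    ∫ z, f z ∂(wkM q y i) = (∑ b ∈ Finset.range (i + 1), f (q ^ b • y)) / ((i + 1 : ℕ) : ℝ) := by
  unfold wkM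
  rw [integral_smul_measure, integral_finsetSum_measure]
  · simp only [integral_dirac]
    rw [ENNReal.toReal_inv, ENNReal.toReal_natCast, smul_eq_mul, div_eq_inv_mul]
  · intro p _
    exact integrable_dirac (by simp)

private theorem wk_intg (κ : Measure T) [IsFiniteMeasure κ] (f : C(T, ℝ)) : Integrable f κ :=
  f.continuous.integrable_of_hasCompactSupport (HasCompactSupport.of_compactSpace _)

theorem weak (q : ℕ) (y : ℕ → T) (U : Ultrafilter ℕ) (hU : (U : Filter ℕ) ≤ atTop) :
    ∃ μ : Measure T, IsProbabilityMeasure μ ∧ MeasurePreserving (fun x : T => q • x) μ μ ∧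
      ∀ C : Set T, IsClosed C → ∀ c : ℝ, (∀ᶠ i in (U : Filter ℕ), c * i ≤ (cnt {b | q ^ b • y i ∈ C} i : ℝ)) →
        c ≤ μ.real C := by
  classical
  let P : ℕ → ProbabilityMeasure T := fun i => ⟨wkM q (y i) i, wkM_prob q (y i) i⟩
  obtain ⟨J, -, hJ⟩ := (isCompact_univ (X := ProbabilityMeasure T)).ultrafilter_le_nhds
    (U.map P) (by simp)
  have h1 : Tendsto P U (𝓝 J) := hJ
  rw [ProbabilityMeasure.tendsto_iff_forall_integral_tendsto] at h1
  have hlim : ∀ f : C(T, ℝ), Tendsto (fun i : ℕ => (∑ b ∈ Finset.range (i + 1),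
      f (q ^ b • y i)) / ((i + 1 : ℕ) : ℝ)) U (𝓝 (∫ z, f z ∂(J : Measure T))) := by
    intro f
    have h2 := h1 (BoundedContinuousFunction.mkOfCompact f)
    exact h2.congr fun i => wkM_int q (y i) i f
  have hprob : IsProbabilityMeasure (J : Measure T) := J.2
  have hcont : Continuous (fun x : T => q • x) := continuous_const_smul q
  have hU1 : Tendsto (fun i : ℕ => ((i + 1 : ℕ) : ℝ)) U atTop :=
    (tendsto_natCast_atTop_atTop.comp (tendsto_add_atTop_nat 1)).mono_left hU
  refine ⟨(J : Measure T), hprob, ⟨hcont.measurable, ?_⟩, ?_⟩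
  · -- invariance
    have : IsProbabilityMeasure (Measure.map (fun x : T => q • x) (J : Measure T)) :=
      Measure.isProbabilityMeasure_map hcont.measurable.aemeasurable
    refine ext_of_forall_integral_eq_of_IsFiniteMeasure fun f => ?_
    let f' : C(T, ℝ) := f.toContinuousMap
    have hf' : ∀ x, f x = f' x := fun _ => rfl
    rw [integral_map hcont.measurable.aemeasurable f.continuous.aestronglyMeasurable]
    simp only [hf']
    have h3 := hlim (f'.comp ⟨fun x : T => q • x, hcont⟩)
    have h4 := hlim f'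
    have h5 : Tendsto (fun i : ℕ => (∑ b ∈ Finset.range (i + 1),
        f'.comp ⟨fun x : T => q • x, hcont⟩ (q ^ b • y i)) / ((i + 1 : ℕ) : ℝ) -
        (∑ b ∈ Finset.range (i + 1), f' (q ^ b • y i)) / ((i + 1 : ℕ) : ℝ)) U (𝓝 0) := by
      have h6 : ∀ i : ℕ, (∑ b ∈ Finset.range (i + 1),
          f'.comp ⟨fun x : T => q • x, hcont⟩ (q ^ b • y i)) / ((i + 1 : ℕ) : ℝ) -
          (∑ b ∈ Finset.range (i + 1), f' (q ^ b • y i)) / ((i + 1 : ℕ) : ℝ) =
          (f' (q ^ (i + 1) • y i) - f' (y i)) / ((i + 1 : ℕ) : ℝ) := by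
        intro i
        rw [← sub_div]
        congr 1
        have h7 : ∀ b, f'.comp ⟨fun x : T => q • x, hcont⟩ (q ^ b • y i) =
            f' (q ^ (b + 1) • y i) := by
          intro b
          change f' (q • (q ^ b • y i)) = _
          rw [pow_succ', mul_smul]
        rw [Finset.sum_congr rfl fun b _ => h7 b,
          Finset.sum_range_succ (fun b => f' (q ^ (b + 1) • y i)),
          Finset.sum_range_succ' (fun b => f' (q ^ b • y i))]
        simp only [pow_zero, one_smul]
        ring
      simp only [h6]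
      refine squeeze_zero_norm (a := fun i : ℕ => (2 * ‖f'‖) / ((i + 1 : ℕ) : ℝ)) (fun i => ?_)
        (Tendsto.div_atTop tendsto_const_nhds hU1)
      rw [norm_div, Real.norm_natCast]
      gcongr
      calc ‖f' (q ^ (i + 1) • y i) - f' (y i)‖
          ≤ ‖f' (q ^ (i + 1) • y i)‖ + ‖f' (y i)‖ := norm_sub_le _ _
        _ ≤ ‖f'‖ + ‖f'‖ := add_le_add (f'.norm_coe_le_norm _) (f'.norm_coe_le_norm _)
        _ = 2 * ‖f'‖ := by ring
    exact tendsto_nhds_unique ((h3.sub h4).congr fun _ => rfl |> fun h => h) h5 |> fun h => by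
      have := sub_eq_zero.1 h
      exact this
  · intro C hC c hc
    -- outer regularity and Urysohn
    refine le_of_forall_pos_le_add fun ε hε => ?_
    have hfin : (J : Measure T) C < (J : Measure T) C + ENNReal.ofReal ε :=
      ENNReal.lt_add_right (measure_ne_top _ _) (by simpa using hε)
    obtain ⟨V, hCV, hVo, hV⟩ := C.exists_isOpen_lt_of_lt _ hfin
    obtain ⟨g, hg0, hg1, hg⟩ := exists_continuous_zero_one_of_isClosed hVo.isClosed_compl hC
      (by rw [Set.disjoint_left]; exact fun x hx hxC => hx (hCV hxC))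
    have h2 := hlim g
    have h3 : ∫ z, g z ∂(J : Measure T) ≤ (J : Measure T).real C + ε := by
      have h4 : ∫ z, g z ∂(J : Measure T) ≤ ∫ z, V.indicator (fun _ => (1 : ℝ)) z ∂(J : Measure T) := by
        refine integral_mono (wk_intg _ g)
          ((integrable_const (1 : ℝ)).indicator hVo.measurableSet) fun x => ?_
        by_cases hx : x ∈ V
        · rw [Set.indicator_of_mem hx]
          exact (hg x).2
        · rw [Set.indicator_of_notMem hx]
          exact (hg0 hx).le
      rw [integral_indicator hVo.measurableSet, setIntegral_const, smul_eq_mul, mul_one] at h4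
      refine h4.trans ?_
      have h5 : (J : Measure T).real V ≤ ((J : Measure T) C + ENNReal.ofReal ε).toReal :=
        ENNReal.toReal_mono (by simp [measure_ne_top]) hV.le
      rw [ENNReal.toReal_add (measure_ne_top _ _) ENNReal.ofReal_ne_top,
        ENNReal.toReal_ofReal hε.le] at h5
      exact h5
    refine le_trans ?_ h3
    -- the lower bound for the averages
    have h6 : Tendsto (fun i : ℕ => c - c / ((i + 1 : ℕ) : ℝ)) U (𝓝 c) := by
      have := (tendsto_const_nhds (x := c)).sub
        (Tendsto.div_atTop (tendsto_const_nhds (x := c)) hU1)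
      rwa [sub_zero] at this
    refine le_of_tendsto_of_tendsto h6 h2 ?_
    filter_upwards [hc] with i hi
    have hi0 : (0 : ℝ) < ((i + 1 : ℕ) : ℝ) := by positivity
    have h7 : c - c / ((i + 1 : ℕ) : ℝ) = (c * i) / ((i + 1 : ℕ) : ℝ) := by
      field_simp
      push_cast
      ring
    rw [h7]
    gcongr
    refine hi.trans ?_
    have h8 : (cnt {b | q ^ b • y i ∈ C} i : ℝ)
        = ∑ b ∈ Finset.range i, if q ^ b • y i ∈ C then (1 : ℝ) else 0 := by
      unfold cnt
      rw [Finset.sum_boole]
      simp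
    rw [h8, Finset.sum_range_succ]
    have h9 : ∑ b ∈ Finset.range i, (if q ^ b • y i ∈ C then (1 : ℝ) else 0)
        ≤ ∑ b ∈ Finset.range i, g (q ^ b • y i) := by
      refine Finset.sum_le_sum fun b _ => ?_
      split_ifs with hb
      · exact (hg1 hb).ge
      · exact (hg _).1
    linarith [(hg (q ^ i • y i)).1]

end Pool.Agent.NSet
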