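import Pool.Agent.NSet.Prop4
import Pool.Agent.NSet.Block
import Pool.Agent.NSet.Weak

/-!
Module UN (section 5, N1). PROOF: otherwise for every `i` (take `N = i + 1`, `Q = (i + 1)!`) there is `y i` with
`((i+1)! q ^ (i + 1)) • y i ≠ 0` and `cnt {n | q ^ n • y i ∈ E} (i + 1) > ε (i + 1)`; reindex (`y' i = y (i - 1)`) so that for
`i ≥ 1`: `(i ! q ^ i) • y' i ≠ 0`, `cnt .. i > ε i`. `U` a free ultrafilter (`Filter.hyperfilter ℕ ≤ atTop`), `μ` from `weak`.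
`null_irr`: `μ {x ∈ E | not of finite order} = 0`. The sets `E ∩ {M ! • x = 0}` increase with `M` to `E ∩ {finite order}`, so
for some `M` (replace `M !` by `M₁ = M !`) `μ (E \ {M₁ • x = 0}) < ε / 4`. `N` = image of `E` under `M₁`: closed, null,
invariant under `p`, `≠ T`. `ρ, C` from `block` with `η = ε / 4`. The set `E' = {x ∈ E | ρ ≤ ‖M₁ • x‖}` is closed and
`μ E' < ε / 4`, so by `weak` (contrapositive, ultrafilter) `cnt {b | q ^ b • y' i ∈ E'} i < (ε / 4) i` for `U`-many `i`.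
For `i ≥ M₁` the numbers `q ^ b * M₁`, `b < i`, divide `i ! q ^ i`, so `q ^ b • (M₁ • y' i) ≠ 0`, and `block` with
`z = M₁ • y' i`: `cnt {b | q ^ b • z ∈ N ∧ ‖q ^ b • z‖ < ρ} i ≤ (ε / 4) i + C`. Every `b` with `q ^ b • y' i ∈ E` is in one
of the two sets, so `ε i < (ε / 2) i + C` for `U`-many `i`, in particular for arbitrarily large `i`. Contradiction.
-/

open MeasureTheory Filter Topology Set

namespace Pool.Agent.NSet

private theorem UN_small {E : Set T} (hE : IsClosed E) (μ : Measure T) [IsFiniteMeasure μ]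
    (h0 : μ {x ∈ E | ¬ IsOfFinAddOrder x} = 0) {δ : ℝ} (hδ : 0 < δ) :
    ∃ M : ℕ, 0 < M ∧ μ.real (E ∩ {x : T | M • x ≠ 0}) < δ := by
  have hmeas : ∀ n : ℕ, MeasurableSet (E ∩ {x : T | n.factorial • x ≠ 0}) := by
    intro n
    refine hE.measurableSet.inter ?_
    have h1 : IsOpen {x : T | n.factorial • x ≠ 0} :=
      isOpen_compl_singleton.preimage (continuous_const_smul n.factorial)
    exact h1.measurableSet
  have hanti : Antitone fun n : ℕ => E ∩ {x : T | n.factorial • x ≠ 0} := by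
    intro n m hnm x hx
    refine ⟨hx.1, fun h1 => hx.2 ?_⟩
    obtain ⟨c, hc⟩ := Nat.factorial_dvd_factorial hnm
    rw [hc, mul_comm, mul_smul, h1, smul_zero]
  have hint : ⋂ n : ℕ, E ∩ {x : T | n.factorial • x ≠ 0} = {x ∈ E | ¬ IsOfFinAddOrder x} := by
    ext x
    simp only [mem_iInter, mem_inter_iff, mem_ofPred_eq]
    constructor
    · intro h1
      refine ⟨(h1 0).1, fun h2 => ?_⟩
      obtain ⟨n, hn, hnx⟩ := isOfFinAddOrder_iff_nsmul_eq_zero.1 h2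
      refine (h1 n).2 ?_
      obtain ⟨c, hc⟩ := Nat.dvd_factorial hn le_rfl
      rw [hc, mul_comm, mul_smul, hnx, smul_zero]
    · rintro ⟨h1, h2⟩ n
      refine ⟨h1, fun h3 => h2 ?_⟩
      exact isOfFinAddOrder_iff_nsmul_eq_zero.2 ⟨n.factorial, Nat.factorial_pos n, h3⟩
  have ht := tendsto_measure_iInter_atTop (μ := μ) (fun n => (hmeas n).nullMeasurableSet) hanti
    ⟨0, measure_ne_top μ _⟩
  rw [hint, h0] at ht
  have h1 : ∀ᶠ n : ℕ in atTop, μ (E ∩ {x : T | n.factorial • x ≠ 0}) < ENNReal.ofReal δ :=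
    ht.eventually (gt_mem_nhds (ENNReal.ofReal_pos.2 hδ))
  obtain ⟨n, hn⟩ := h1.exists
  refine ⟨n.factorial, Nat.factorial_pos n, ?_⟩
  rw [Measure.real]
  exact (ENNReal.lt_ofReal_iff_toReal_lt (measure_ne_top μ _)).1 hn

private theorem UN_cnt {D D₁ D₂ : Set ℕ} (h : ∀ d ∈ D, d ∈ D₁ ∨ d ∈ D₂) (n : ℕ) :
    cnt D n ≤ cnt D₁ n + cnt D₂ n := by
  classical
  unfold cnt
  refine le_trans (Finset.card_le_card fun d hd => ?_) (Finset.card_union_le _ _)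
  simp only [Finset.mem_filter, Finset.mem_union] at hd ⊢
  rcases h d hd.2 with h1 | h1
  · exact Or.inl ⟨hd.1, h1⟩
  · exact Or.inr ⟨hd.1, h1⟩

theorem uniform {p q : ℕ} (h : MI p q) {E : Set T} (hE : IsClosed E) (hne : E ≠ univ)
    (hpE : ∀ x ∈ E, p • x ∈ E) {ε : ℝ} (hε : 0 < ε) :
    ∃ N Q : ℕ, 0 < N ∧ 0 < Q ∧ ∀ x : T, (Q * q ^ N) • x ≠ 0 → (cnt {n | q ^ n • x ∈ E} N : ℝ) ≤ ε * N := by
  by_contra hcon
  push Not at hcon
  have hex : ∀ i : ℕ, ∃ x : T, 0 < i → (i.factorial * q ^ i) • x ≠ 0 ∧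
      ε * i < (cnt {n | q ^ n • x ∈ E} i : ℝ) := by
    intro i
    rcases Nat.eq_zero_or_pos i with h0 | h0
    · exact ⟨0, fun h1 => by omega⟩
    · obtain ⟨x, hx⟩ := hcon i i.factorial h0 (Nat.factorial_pos i)
      exact ⟨x, fun _ => hx⟩
  choose y hy using hex
  have hU : ((hyperfilter ℕ : Ultrafilter ℕ) : Filter ℕ) ≤ atTop := Nat.hyperfilter_le_atTop
  obtain ⟨μ, hμ, hinv, hweak⟩ := weak q y (hyperfilter ℕ) hU
  have hirr := null_irr h hE hne hpE μ hinv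
  obtain ⟨M, hM, hMs⟩ := UN_small hE μ hirr (show (0 : ℝ) < ε / 4 by positivity)
  have hN : IsClosed ((fun x : T => M • x) '' E) :=
    (hE.isCompact.image (continuous_const_smul M)).isClosed
  have hN0 : volume ((fun x : T => M • x) '' E) = 0 :=
    null_image hM (null_inv h.1 hE hne hpE)
  have hpN : ∀ x ∈ (fun x : T => M • x) '' E, p • x ∈ (fun x : T => M • x) '' E := by
    rintro _ ⟨x, hx, rfl⟩
    exact ⟨p • x, hpE x hx, smul_comm M p x⟩
  obtain ⟨ρ, hρ, C, hblock⟩ := block h hN hN0 hpN (show (0 : ℝ) < ε / 4 by positivity)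
  have hE'c : IsClosed (E ∩ {x : T | ρ ≤ ‖M • x‖}) := by
    refine hE.inter ?_
    have hcont : Continuous fun x : T => ‖M • x‖ := (continuous_const_smul M).norm
    exact isClosed_le continuous_const hcont
  have hE's : μ.real (E ∩ {x : T | ρ ≤ ‖M • x‖}) < ε / 4 := by
    refine lt_of_le_of_lt (measureReal_mono ?_) hMs
    rintro x ⟨hx1, hx2⟩
    refine ⟨hx1, fun h1 => ?_⟩
    have h2 : ρ ≤ ‖M • x‖ := hx2
    rw [h1, norm_zero] at h2
    linarith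
  have hU1 : ∀ᶠ i in ((hyperfilter ℕ : Ultrafilter ℕ) : Filter ℕ),
      ¬ (ε / 4 * i ≤ (cnt {b | q ^ b • y i ∈ E ∩ {x : T | ρ ≤ ‖M • x‖}} i : ℝ)) := by
    rw [Ultrafilter.eventually_not]
    intro h1
    have h2 := hweak _ hE'c (ε / 4) h1
    linarith
  obtain ⟨i₀, hi₀⟩ := exists_nat_gt (2 * C / ε)
  have hU2 : ∀ᶠ i in ((hyperfilter ℕ : Ultrafilter ℕ) : Filter ℕ), M + 1 ≤ i :=
    hU (eventually_ge_atTop (M + 1))
  have hU3 : ∀ᶠ i in ((hyperfilter ℕ : Ultrafilter ℕ) : Filter ℕ), i₀ ≤ i :=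
    hU (eventually_ge_atTop i₀)
  obtain ⟨i, h1, h2, h3⟩ := (hU1.and (hU2.and hU3)).exists
  have h2' : M + 1 ≤ i := h2
  have h3' : i₀ ≤ i := h3
  push Not at h1
  obtain ⟨hy1, hy2⟩ := hy i (by omega)
  have hne0 : ∀ b < i, q ^ b • (M • y i) ≠ 0 := by
    intro b hb h4
    apply hy1
    have hdvd : q ^ b * M ∣ i.factorial * q ^ i := by
      rw [mul_comm (i.factorial)]
      exact mul_dvd_mul (pow_dvd_pow q hb.le) (Nat.dvd_factorial hM (by omega))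
    obtain ⟨c, hc⟩ := hdvd
    rw [← mul_smul] at h4
    rw [hc, mul_comm, mul_smul, h4, smul_zero]
  have h4 := hblock i (M • y i) hne0
  have h5 := UN_cnt (D := {n | q ^ n • y i ∈ E})
    (D₁ := {b | q ^ b • y i ∈ E ∩ {x : T | ρ ≤ ‖M • x‖}})
    (D₂ := {b | q ^ b • (M • y i) ∈ (fun x : T => M • x) '' E ∧ ‖q ^ b • (M • y i)‖ < ρ}) (by
      intro b hb
      have hb' : q ^ b • y i ∈ E := hb
      rcases le_or_gt ρ ‖M • (q ^ b • y i)‖ with h6 | h6
      · exact Or.inl ⟨hb', h6⟩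
      · refine Or.inr ⟨⟨q ^ b • y i, hb', smul_comm M (q ^ b) (y i)⟩, ?_⟩
        rw [smul_comm (q ^ b) M (y i)]
        exact h6) i
  have h6 : (cnt {n | q ^ n • y i ∈ E} i : ℝ) ≤
      (cnt {b | q ^ b • y i ∈ E ∩ {x : T | ρ ≤ ‖M • x‖}} i : ℝ) +
      (cnt {b | q ^ b • (M • y i) ∈ (fun x : T => M • x) '' E ∧ ‖q ^ b • (M • y i)‖ < ρ} i : ℝ) := by
    exact_mod_cast h5
  have h7 : (2 * C / ε : ℝ) < i := lt_of_lt_of_le hi₀ (by exact_mod_cast h3')
  rw [div_lt_iff₀ hε] at h7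
  nlinarith

end Pool.Agent.NSet
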