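import Pool.Agent.NSet.Defs

/-!
Module W. Equidistribution of an irrational rotation with respect to a closed null set, uniform in the starting point.
PROOF. `volume G = 0`, `G` compact, `volume` (a probability measure on `T`) outer regular: there is an open `V ⊇ G` with
`volume V < η / 4`, and by Urysohn (`exists_continuous_one_zero_of_isCompact` or `exists_continuous_zero_one_of_isClosed`)
a continuous `g : T → [0, 1]` with `g = 1` on `G`, `g = 0` outside `V`, so `∫ g ≤ η / 4`. Density of trigonometric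
polynomials (`span_fourier_closure_eq_top`, as in Pool/Agent/Half/Cont.lean): a finite combination
`P = ∑ c_m fourier m` with `‖(g : C(T, ℂ)) - P‖ ≤ η / 4`. For `m ≠ 0` the sums `∑_{d < n} fourier m (c + d • α)` are
geometric, with absolute value at most `2 / ‖1 - fourier m α‖` (`α` irrational: `fourier m α ≠ 1`), uniformly in `c`. So
`#{d < n : c + d α ∈ G} ≤ ∑_{d < n} g (c + d α) ≤ n η / 4 + re ∑_d P ≤ n η / 4 + n re (c_0) + const` and
`re c_0 = re ∫ P ≤ ∫ g + η / 4 ≤ η / 2`; take `n₀ ≥ 4 const / η`. (An induction over the span, `Submodule.span_induction`,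
showing that the averages of `P` over the orbit converge to `∫ P` UNIFORMLY in `c`, avoids writing the coefficients.)
-/

open MeasureTheory Filter Topology Set

namespace Pool.Agent.NSet

private theorem wy_intg (f : C(T, ℂ)) : Integrable f (volume : Measure T) :=
  f.continuous.integrable_of_hasCompactSupport (HasCompactSupport.of_compactSpace _)

private theorem wy_intgR (f : C(T, ℝ)) : Integrable f (volume : Measure T) :=
  f.continuous.integrable_of_hasCompactSupport (HasCompactSupport.of_compactSpace _)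

private theorem wy_char {α : ℝ} (hα : Irrational α) {m : ℤ} (hm : m ≠ 0) :
    (fourier m ((α : ℝ) : T) : ℂ) ≠ 1 := by
  rw [fourier_coe_apply]
  intro h
  rw [Complex.exp_eq_one_iff] at h
  obtain ⟨n, hn⟩ := h
  have h2 : (2 * Real.pi * Complex.I : ℂ) ≠ 0 := Complex.two_pi_I_ne_zero
  have h3 : ((m : ℂ) * (α : ℂ)) = (n : ℂ) := by
    have : (2 * Real.pi * Complex.I : ℂ) * ((m : ℂ) * (α : ℂ))
        = (2 * Real.pi * Complex.I : ℂ) * (n : ℂ) := by
      calc (2 * Real.pi * Complex.I : ℂ) * ((m : ℂ) * (α : ℂ))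
          = 2 * Real.pi * Complex.I * m * α / ((1 : ℝ) : ℂ) := by push_cast; ring
        _ = (n : ℂ) * (2 * Real.pi * Complex.I) := hn
        _ = _ := by ring
    exact mul_left_cancel₀ h2 this
  have h4 : (m : ℝ) * α = (n : ℝ) := by exact_mod_cast h3
  exact (hα.intCast_mul hm).ne_int n h4

private theorem wy_mem {α : ℝ} (hα : Irrational α) (m : ℤ) :
    ∀ ε : ℝ, 0 < ε → ∃ n₀ : ℕ, ∀ n ≥ n₀, ∀ c : T,
      ‖∑ d ∈ Finset.range n, (fourier m (c + d • ((α : ℝ) : T)) : ℂ)
        - n * ∫ z : T, (fourier m z : ℂ)‖ ≤ ε * n := by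
  intro ε hε
  by_cases hm : m = 0
  · subst hm
    refine ⟨0, fun n _ c => ?_⟩
    simp only [fourier_zero, Finset.sum_const, Finset.card_range, integral_const]
    rw [show (volume : Measure T).real univ = 1 from by simp [Measure.real]]
    simp only [one_smul, mul_one, nsmul_eq_mul, sub_self, norm_zero]
    positivity
  · have hz := wy_char hα hm
    set z : ℂ := fourier m ((α : ℝ) : T) with hzd
    have hz1 : 0 < ‖z - 1‖ := norm_pos_iff.2 (sub_ne_zero.2 hz)
    obtain ⟨n₀, hn₀⟩ := exists_nat_ge (2 / (‖z - 1‖ * ε))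
    refine ⟨n₀, fun n hn c => ?_⟩
    have hadd : ∀ x y : T, (fourier m (x + y) : ℂ) = fourier m x * fourier m y := by
      intro x y
      simp only [fourier_apply, smul_add, AddCircle.toCircle_add, Circle.coe_mul]
    have hint : ∫ z : T, (fourier m z : ℂ) = 0 := by
      have h1 : ∫ w : T, (fourier m (w + ((α : ℝ) : T)) : ℂ) = ∫ w : T, (fourier m w : ℂ) :=
        integral_add_right_eq_self (fun w : T => (fourier m w : ℂ)) ((α : ℝ) : T)
      simp only [hadd] at h1
      rw [integral_mul_const, ← hzd] at h1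
      have h2 : (∫ w : T, (fourier m w : ℂ)) * (z - 1) = 0 := by
        rw [mul_sub, h1, mul_one, sub_self]
      rcases mul_eq_zero.1 h2 with h | h
      · exact h
      · exact absurd (sub_eq_zero.1 h) hz
    have hterm : ∀ d : ℕ, (fourier m (c + d • ((α : ℝ) : T)) : ℂ) = fourier m c * z ^ d := by
      intro d
      induction d with
      | zero => rw [zero_smul, add_zero, pow_zero, mul_one]
      | succ d ih => rw [succ_nsmul, ← add_assoc, hadd, ih, pow_succ, mul_assoc]
    rw [hint, mul_zero, sub_zero, Finset.sum_congr rfl fun d _ => hterm d, ← Finset.mul_sum,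
      norm_mul]
    have hn1 : ∀ x : T, ‖(fourier m x : ℂ)‖ = 1 := fun x => by
      rw [fourier_apply]; exact Circle.norm_coe _
    have h1 : ‖(fourier m c : ℂ)‖ = 1 := hn1 c
    rw [h1, one_mul]
    have h2 : (∑ d ∈ Finset.range n, z ^ d) * (z - 1) = z ^ n - 1 := geom_sum_mul z n
    have h3 : ‖z‖ = 1 := hn1 _
    have h4 : ‖∑ d ∈ Finset.range n, z ^ d‖ * ‖z - 1‖ ≤ 2 := by
      rw [← norm_mul, h2]
      refine (norm_sub_le _ _).trans ?_
      rw [norm_pow, h3, one_pow, norm_one]
      norm_num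
    have h5 : ‖∑ d ∈ Finset.range n, z ^ d‖ ≤ 2 / ‖z - 1‖ := by
      rwa [le_div_iff₀ hz1]
    refine h5.trans ?_
    have h6 : 2 / (‖z - 1‖ * ε) ≤ n := hn₀.trans (by exact_mod_cast hn)
    rw [div_le_iff₀ (by positivity)] at h6
    rw [div_le_iff₀ hz1]
    linarith

private theorem wy_span {α : ℝ} (hα : Irrational α) (g : C(T, ℂ))
    (hg : g ∈ Submodule.span ℂ (Set.range (@fourier (1 : ℝ)))) :
    ∀ ε : ℝ, 0 < ε → ∃ n₀ : ℕ, ∀ n ≥ n₀, ∀ c : T,
      ‖∑ d ∈ Finset.range n, g (c + d • ((α : ℝ) : T)) - n * ∫ z : T, g z‖ ≤ ε * n := by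
  induction hg using Submodule.span_induction with
  | mem g hg =>
    obtain ⟨m, rfl⟩ := hg
    exact wy_mem hα m
  | zero =>
    intro ε hε
    refine ⟨0, fun n _ c => ?_⟩
    simp only [ContinuousMap.zero_apply, Finset.sum_const_zero, integral_zero, mul_zero, sub_zero,
      norm_zero]
    positivity
  | add f g _ _ hf hg =>
    intro ε hε
    obtain ⟨n₁, h1⟩ := hf (ε / 2) (by positivity)
    obtain ⟨n₂, h2⟩ := hg (ε / 2) (by positivity)
    refine ⟨max n₁ n₂, fun n hn c => ?_⟩
    have h3 := h1 n (le_of_max_le_left hn) c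
    have h4 := h2 n (le_of_max_le_right hn) c
    have h5 : ∫ z : T, (f + g : C(T, ℂ)) z = (∫ z : T, f z) + ∫ z : T, g z := by
      simp only [ContinuousMap.add_apply]
      exact integral_add (wy_intg f) (wy_intg g)
    rw [h5]
    have h6 : ∑ d ∈ Finset.range n, (f + g : C(T, ℂ)) (c + d • ((α : ℝ) : T))
        - n * ((∫ z : T, f z) + ∫ z : T, g z)
        = (∑ d ∈ Finset.range n, f (c + d • ((α : ℝ) : T)) - n * ∫ z : T, f z)
          + (∑ d ∈ Finset.range n, g (c + d • ((α : ℝ) : T)) - n * ∫ z : T, g z) := by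
      simp only [ContinuousMap.add_apply, Finset.sum_add_distrib]
      ring
    rw [h6]
    refine (norm_add_le _ _).trans ?_
    linarith
  | smul a f _ hf =>
    intro ε hε
    obtain ⟨n₁, h1⟩ := hf (ε / (‖a‖ + 1)) (by positivity)
    refine ⟨n₁, fun n hn c => ?_⟩
    have h3 := h1 n hn c
    have h5 : ∫ z : T, (a • f : C(T, ℂ)) z = a * ∫ z : T, f z := by
      simp only [ContinuousMap.smul_apply, smul_eq_mul]
      exact integral_const_mul _ _
    rw [h5]
    have h6 : ∑ d ∈ Finset.range n, (a • f : C(T, ℂ)) (c + d • ((α : ℝ) : T))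
        - n * (a * ∫ z : T, f z)
        = a * (∑ d ∈ Finset.range n, f (c + d • ((α : ℝ) : T)) - n * ∫ z : T, f z) := by
      simp only [ContinuousMap.smul_apply, smul_eq_mul, ← Finset.mul_sum]
      ring
    rw [h6, norm_mul]
    calc ‖a‖ * ‖∑ d ∈ Finset.range n, f (c + d • ((α : ℝ) : T)) - n * ∫ z : T, f z‖
        ≤ ‖a‖ * (ε / (‖a‖ + 1) * n) := by gcongr
      _ = (‖a‖ / (‖a‖ + 1)) * (ε * n) := by field_simp
      _ ≤ 1 * (ε * n) := by
          gcongr
          rw [div_le_one (by positivity)]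
          linarith
      _ = ε * n := one_mul _

theorem weyl_null {α : ℝ} (hα : Irrational α) {G : Set T} (hG : IsClosed G) (h0 : volume G = 0) {η : ℝ}
    (hη : 0 < η) : ∃ n₀ : ℕ, ∀ n ≥ n₀, ∀ c : T, (cnt {d | c + d • (α : T) ∈ G} n : ℝ) ≤ η * n := by
  classical
  have hlt : (volume : Measure T) G < ENNReal.ofReal (η / 4) := by
    rw [h0]; simpa using by positivity
  obtain ⟨V, hGV, hVo, hV⟩ := G.exists_isOpen_lt_of_lt _ hlt
  obtain ⟨g, hg0, hg1, hg⟩ := exists_continuous_zero_one_of_isClosed hVo.isClosed_compl hG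
    (by rw [Set.disjoint_left]; exact fun x hx hxC => hx (hGV hxC))
  have hgV : ∫ z : T, g z ≤ η / 4 := by
    have h4 : ∫ z : T, g z ≤ ∫ z : T, V.indicator (fun _ => (1 : ℝ)) z := by
      refine integral_mono (wy_intgR g)
        ((integrable_const (1 : ℝ)).indicator hVo.measurableSet) fun x => ?_
      by_cases hx : x ∈ V
      · rw [Set.indicator_of_mem hx]
        exact (hg x).2
      · rw [Set.indicator_of_notMem hx]
        exact (hg0 hx).le
    rw [integral_indicator hVo.measurableSet, setIntegral_const, smul_eq_mul, mul_one] at h4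
    refine h4.trans ?_
    have h5 : (volume : Measure T).real V ≤ (ENNReal.ofReal (η / 4)).toReal :=
      ENNReal.toReal_mono (by simp) hV.le
    rwa [ENNReal.toReal_ofReal (by positivity)] at h5
  -- the complex version and its approximation
  let gC : C(T, ℂ) := ⟨fun x => ((g x : ℝ) : ℂ), Complex.continuous_ofReal.comp g.continuous⟩
  have hgC : ∀ x, gC x = ((g x : ℝ) : ℂ) := fun _ => rfl
  have hf : gC ∈ (Submodule.span ℂ (Set.range (@fourier (1 : ℝ)))).topologicalClosure := by
    rw [span_fourier_closure_eq_top]; trivial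
  rw [← SetLike.mem_coe, Submodule.topologicalClosure_coe, Metric.mem_closure_iff] at hf
  obtain ⟨P, hP, hgP⟩ := hf (η / 4) (by positivity)
  rw [dist_eq_norm] at hgP
  obtain ⟨n₀, hn₀⟩ := wy_span hα P hP (η / 4) (by positivity)
  refine ⟨n₀, fun n hn c => ?_⟩
  have hpt : ∀ x : T, ‖gC x - P x‖ ≤ η / 4 := fun x =>
    ((gC - P).norm_coe_le_norm x).trans hgP.le
  have h8 : (cnt {d | c + d • (α : T) ∈ G} n : ℝ)
      = ∑ b ∈ Finset.range n, if c + b • (α : T) ∈ G then (1 : ℝ) else 0 := by
    unfold cnt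
    rw [Finset.sum_boole]
    simp
  have h9 : ∑ b ∈ Finset.range n, (if c + b • (α : T) ∈ G then (1 : ℝ) else 0)
      ≤ ∑ b ∈ Finset.range n, ((P (c + b • (α : T))).re + η / 4) := by
    refine Finset.sum_le_sum fun b _ => ?_
    have h1 : g (c + b • (α : T)) ≤ (P (c + b • (α : T))).re + η / 4 := by
      have h2 := (Complex.re_le_norm _).trans (hpt (c + b • (α : T)))
      rw [Complex.sub_re, hgC, Complex.ofReal_re] at h2
      linarith
    refine le_trans ?_ h1
    split_ifs with hb
    · exact (hg1 hb).ge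
    · exact (hg _).1
  rw [h8]
  refine h9.trans ?_
  rw [Finset.sum_add_distrib, Finset.sum_const, Finset.card_range, nsmul_eq_mul]
  have h10 : ∑ b ∈ Finset.range n, (P (c + b • (α : T))).re
      = (∑ b ∈ Finset.range n, P (c + b • (α : T)) - n * ∫ z : T, P z).re
        + n * (∫ z : T, P z).re := by
    rw [Complex.sub_re, Complex.re_sum]
    have : ((n : ℂ) * ∫ z : T, P z).re = n * (∫ z : T, P z).re := by
      rw [Complex.mul_re]; simp
    rw [this]; ring
  have h11 := (Complex.re_le_norm _).trans (hn₀ n hn c)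
  have h12 : (∫ z : T, P z).re ≤ η / 2 := by
    have h13 : ‖(∫ z : T, gC z) - ∫ z : T, P z‖ ≤ η / 4 := by
      rw [← integral_sub (wy_intg gC) (wy_intg P)]
      have h5 := norm_integral_le_of_norm_le_const (μ := (volume : Measure T)) (C := η / 4)
        (f := fun z => gC z - P z) (Eventually.of_forall hpt)
      simpa [Measure.real] using h5
    have h14 : (∫ z : T, gC z) = ((∫ z : T, g z : ℝ) : ℂ) := by
      simp only [hgC]
      exact integral_ofReal
    have h15 := (Complex.abs_re_le_norm _).trans h13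
    rw [Complex.sub_re, h14, Complex.ofReal_re] at h15
    have := abs_le.1 h15
    linarith
  rw [h10]
  have hn0 : (0 : ℝ) ≤ n := Nat.cast_nonneg n
  nlinarith

end Pool.Agent.NSet
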